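import Pool.Agent.P.MP_ed7f76_gt.Defs
import Mathlib

-- part Pool.Agent.P.MP_ed7f76_gt.Paths
section

/-! Traces of powers as sums over closed paths; absolute convergence of the zeta series. -/

namespace Pool.Agent.P.MP_ed7f76_gt

open Finset

lemma pow_entry_paths {ι : Type*} [Fintype ι] [DecidableEq ι] (A : Matrix ι ι ℂ) (q : ι) :
    ∀ (n : ℕ) (p : ι), (A ^ (n + 1)) p q = ∑ y : Fin n → ι, ∏ i : Fin (n + 1),
      A ((Fin.cons p y : Fin (n + 1) → ι) i) ((Fin.snoc y q : Fin (n + 1) → ι) i) := by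
  intro n
  induction n with
  | zero =>
    intro p
    simp only [zero_add, pow_one, Finset.univ_unique, Finset.sum_singleton]
    rw [Fin.prod_univ_succ]
    simp [Fin.snoc]
  | succ n ih =>
    intro p
    rw [pow_succ', Matrix.mul_apply, ← (Fin.consEquiv fun _ : Fin (n + 1) => ι).sum_comp,
      Fintype.sum_prod_type]
    refine Finset.sum_congr rfl fun r _ => ?_
    rw [ih r, Finset.mul_sum]
    refine Finset.sum_congr rfl fun y _ => ?_
    conv_rhs => rw [Fin.prod_univ_succ]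
    have e : (Fin.snoc (Fin.cons r y : Fin (n + 1) → ι) q : Fin (n + 2) → ι)
        = Fin.cons r (Fin.snoc y q : Fin (n + 1) → ι) := (Fin.cons_snoc_eq_snoc_cons r y q).symm
    have e2 : ((Fin.consEquiv fun _ : Fin (n + 1) => ι) (r, y)) = Fin.cons r y := rfl
    simp only [e2, e, Fin.cons_zero, Fin.cons_succ]

lemma trace_pow_paths {ι : Type*} [Fintype ι] [DecidableEq ι] (A : Matrix ι ι ℂ) (n : ℕ) :
    Matrix.trace (A ^ (n + 1)) = ∑ x : Fin (n + 1) → ι, ∏ i, A (x i) (x (i + 1)) := by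
  rw [← (Fin.consEquiv fun _ : Fin (n + 1) => ι).sum_comp, Fintype.sum_prod_type]
  simp only [Matrix.trace, Matrix.diag]
  refine Finset.sum_congr rfl fun p _ => ?_
  rw [pow_entry_paths]
  refine Finset.sum_congr rfl fun y _ => Finset.prod_congr rfl fun i _ => ?_
  rw [Fin.snoc_eq_cons_rotate]
  simp only [Fin.consEquiv_apply, finRotate_apply]

/-- the closed path attached to steps `j` and starting point `n` -/
def pathOf {N : ℕ} (j : Fin N → ℤ) (n : ℤ) : Fin N → ℤ := fun i => n + ∑ t ∈ Iio i, j t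

lemma pathOf_zero {n : ℕ} (j : Fin (n + 1) → ℤ) (s : ℤ) : pathOf j s 0 = s := by
  have : (Iio (0 : Fin (n + 1))) = ∅ := by ext t; simp
  simp [pathOf, this]

lemma pathOf_step {n : ℕ} {j : Fin (n + 1) → ℤ} (hj : ∑ i, j i = 0) (s : ℤ) (i : Fin (n + 1)) :
    pathOf j s (i + 1) - pathOf j s i = j i := by
  induction i using Fin.lastCases with
  | last =>
    rw [Fin.last_add_one, pathOf_zero]
    have : (univ : Finset (Fin (n + 1))) = insert (Fin.last n) (Iio (Fin.last n)) := by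
      ext t
      simp only [mem_univ, mem_insert, mem_Iio, true_iff]
      exact (Fin.le_last t).eq_or_lt
    rw [this, Finset.sum_insert (by simp)] at hj
    simp only [pathOf]
    omega
  | cast i =>
    rw [Fin.coeSucc_eq_succ]
    have : Iio (Fin.succ i) = insert (Fin.castSucc i) (Iio (Fin.castSucc i)) := by
      ext t
      simp only [mem_Iio, mem_insert, Fin.lt_def, Fin.ext_iff, Fin.val_succ, Fin.val_castSucc]
      omega
    simp only [pathOf]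
    rw [this, Finset.sum_insert (by simp)]
    ring

lemma pathOf_bij (n : ℕ) : Function.Bijective
    (fun p : {j : Fin (n + 1) → ℤ // ∑ i, j i = 0} × ℤ => pathOf p.1.1 p.2) := by
  constructor
  · rintro ⟨⟨j, hj⟩, s⟩ ⟨⟨j', hj'⟩, s'⟩ h
    simp only at h
    have h1 : s = s' := by rw [← pathOf_zero j s, h, pathOf_zero]
    have h2 : j = j' := by
      funext i; rw [← pathOf_step hj s i, h, pathOf_step hj' s' i]
    subst h1 h2; rfl
  · intro x
    have hj : ∑ i, (x (i + 1) - x i) = 0 := by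
      rw [Finset.sum_sub_distrib, sub_eq_zero]
      exact Equiv.sum_comp (Equiv.addRight (1 : Fin (n + 1))) x
    refine ⟨⟨⟨fun i => x (i + 1) - x i, hj⟩, x 0⟩, ?_⟩
    funext i
    simp only
    induction i using Fin.induction with
    | zero => exact pathOf_zero _ _
    | succ i ih =>
      have := pathOf_step hj (x 0) (Fin.castSucc i)
      rw [Fin.coeSucc_eq_succ, ih] at this
      omega

lemma one_add_sum_le {ι : Type*} (s : Finset ι) (a : ι → ℝ) (ha : ∀ i, 0 ≤ a i) :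
    1 + ∑ i ∈ s, a i ≤ ∏ i ∈ s, (1 + a i) := by
  classical
  induction s using Finset.induction_on with
  | empty => simp
  | insert i s hi ih =>
    rw [Finset.sum_insert hi, Finset.prod_insert hi]
    have h1 := ha i
    have h2 : 0 ≤ ∑ i ∈ s, a i := Finset.sum_nonneg fun i _ => ha i
    nlinarith

lemma partial_le {N : ℕ} (j : Fin N → ℤ) (i : Fin N) : |∑ t ∈ Iio i, j t| ≤ ∑ t, |j t| :=
  (Finset.abs_sum_le_sum_abs _ _).trans
    (Finset.sum_le_sum_of_subset_of_nonneg (Finset.subset_univ _) fun _ _ _ => abs_nonneg _)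

lemma supp_bound {N : ℕ} (hN : Even N) (j : Fin N → ℤ) (n : ℤ)
    (h : |fpoly j n| - fpoly j n ≠ 0) : |n| ≤ ∑ t, |j t| := by
  have hneg : fpoly j n < 0 := by
    by_contra hc
    rw [abs_of_nonneg (not_lt.mp hc), sub_self] at h
    exact h rfl
  have h1 : ∃ i, n + ∑ t ∈ Iio i, j t < 0 := by
    by_contra hc
    push Not at hc
    exact absurd (Finset.prod_nonneg fun i _ => hc i) (not_le.mpr hneg)
  have h2 : ∃ i, 0 < n + ∑ t ∈ Iio i, j t := by
    by_contra hc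
    push Not at hc
    have h3 : 0 ≤ ∏ i : Fin N, -(n + ∑ t ∈ Iio i, j t) :=
      Finset.prod_nonneg fun i _ => neg_nonneg.mpr (hc i)
    rw [Finset.prod_neg, Finset.card_univ, Fintype.card_fin, hN.neg_one_pow, one_mul] at h3
    exact absurd h3 (not_le.mpr hneg)
  obtain ⟨i, hi⟩ := h1
  obtain ⟨i', hi'⟩ := h2
  have a1 := abs_le.mp (partial_le j i)
  have a2 := abs_le.mp (partial_le j i')
  rw [abs_le]; constructor <;> omega

lemma term_bound {N : ℕ} (hN : Even N) (j : Fin N → ℤ) (n : ℤ) :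
    |((|fpoly j n| - fpoly j n : ℤ) : ℝ)| ≤
      2 * 2 ^ N * (∏ t, (1 + |(j t : ℝ)|)) ^ (N + 2) * (1 / (1 + (n : ℝ) ^ 2)) := by
  by_cases h : |fpoly j n| - fpoly j n = 0
  · rw [h]; simp only [Int.cast_zero, abs_zero]; positivity
  have h1 := supp_bound hN j n h
  set P : ℝ := ∏ t, (1 + |(j t : ℝ)|) with hP
  set J : ℝ := ∑ t, |(j t : ℝ)| with hJ
  have hJ0 : 0 ≤ J := Finset.sum_nonneg fun _ _ => abs_nonneg _
  have hPJ : 1 + J ≤ P := one_add_sum_le _ _ fun _ => abs_nonneg _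
  have h1' : |(n : ℝ)| ≤ J := by rw [hJ]; exact_mod_cast h1
  have h2 : |(fpoly j n : ℝ)| ≤ (2 * P) ^ N := by
    unfold fpoly
    push_cast
    rw [Finset.abs_prod]
    refine (Finset.prod_le_prod (g := fun _ => 2 * P) (fun _ _ => abs_nonneg _) fun i _ => ?_).trans
      (by simp)
    have a1 : |∑ t ∈ Iio i, (j t : ℝ)| ≤ J := by
      have := partial_le j i
      rw [hJ]; exact_mod_cast this
    have a2 := abs_add_le (n : ℝ) (∑ t ∈ Iio i, (j t : ℝ))
    linarith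
  have h3 : 1 + (n : ℝ) ^ 2 ≤ P ^ 2 := by
    have := sq_le_sq' (by linarith [abs_le.mp h1']) (abs_le.mp h1').2
    nlinarith
  have h4 : |((|fpoly j n| - fpoly j n : ℤ) : ℝ)| ≤ 2 * (2 * P) ^ N := by
    push_cast
    have := abs_sub (|(fpoly j n : ℝ)|) (fpoly j n : ℝ)
    rw [abs_abs] at this
    linarith
  have h5 : (0 : ℝ) < 1 + (n : ℝ) ^ 2 := by positivity
  have hP0 : 0 ≤ P := by linarith
  rw [mul_one_div, le_div_iff₀ h5]
  calc _ ≤ 2 * (2 * P) ^ N * P ^ 2 := mul_le_mul h4 h3 h5.le (by positivity)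
    _ = _ := by ring

lemma summable_pi {N : ℕ} {c : ℤ → ℝ} (hc0 : ∀ t, 0 ≤ c t) (hc : Summable c) :
    Summable fun j : Fin N → ℤ => ∏ i, c (j i) := by
  classical
  refine summable_of_sum_le (c := (∑' t, c t) ^ N)
    (fun j => Finset.prod_nonneg fun _ _ => hc0 _) fun s => ?_
  set T : Finset ℤ := s.biUnion fun j => univ.image j with hT
  have h1 : s ⊆ Fintype.piFinset fun _ : Fin N => T := by
    intro j hj
    rw [Fintype.mem_piFinset]
    intro i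
    exact Finset.mem_biUnion.mpr ⟨j, hj, Finset.mem_image_of_mem _ (mem_univ i)⟩
  calc _ ≤ ∑ j ∈ Fintype.piFinset fun _ : Fin N => T, ∏ i, c (j i) :=
        Finset.sum_le_sum_of_subset_of_nonneg h1 fun j _ _ => Finset.prod_nonneg fun _ _ => hc0 _
    _ = ∏ _i : Fin N, ∑ t ∈ T, c t := (Finset.prod_univ_sum _ _).symm
    _ = (∑ t ∈ T, c t) ^ N := by simp
    _ ≤ _ := pow_le_pow_left₀ (Finset.sum_nonneg fun _ _ => hc0 _)
        (hc.sum_le_tsum _ fun _ _ => hc0 _) _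

lemma summable_inv_sq : Summable fun n : ℤ => 1 / (1 + (n : ℝ) ^ 2) := by
  have h := Real.summable_one_div_int_pow.mpr (one_lt_two)
  have h2 : Summable fun n : ℤ => (if n = 0 then (1 : ℝ) else 0) := summable_of_hasFiniteSupport
    ((Set.finite_singleton 0).subset (by intro n hn; by_contra hc; simp_all))
  refine Summable.of_nonneg_of_le (fun n => by positivity) (fun n => ?_) (h.add h2)
  split_ifs with hn
  · simp [hn]
  · have : (0 : ℝ) < (n : ℝ) ^ 2 := by positivity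
    rw [add_zero]
    exact one_div_le_one_div_of_le this (by linarith)

lemma summable_pairs {N : ℕ} (hN : Even N) {b : ℤ → ℂ}
    (hb : Summable fun t : ℤ => (1 + |(t : ℝ)|) ^ (N + 2) * ‖b t‖) :
    Summable fun p : {j : Fin N → ℤ // ∑ i, j i = 0} × ℤ =>
      ((|fpoly p.1.1 p.2| - fpoly p.1.1 p.2 : ℤ) : ℂ) * ∏ i, b (p.1.1 i) := by
  have h1 := (summable_pi (N := N) (fun t => by positivity) hb).subtype {j | ∑ i, j i = 0}
  have h2 := (Summable.mul_of_nonneg h1 summable_inv_sq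
    (fun j => Finset.prod_nonneg fun _ _ => by positivity) (fun n => by positivity)).mul_left
    (2 * 2 ^ N)
  refine Summable.of_norm_bounded h2 fun p => ?_
  rw [norm_mul, Complex.norm_intCast, norm_prod]
  have h3 := term_bound hN p.1.1 p.2
  simp only [Function.comp_apply]
  rw [Finset.prod_mul_distrib, Finset.prod_pow]
  calc _ ≤ (2 * 2 ^ N * (∏ t, (1 + |(p.1.1 t : ℝ)|)) ^ (N + 2) * (1 / (1 + (p.2 : ℝ) ^ 2)))
        * ∏ i, ‖b (p.1.1 i)‖ := mul_le_mul_of_nonneg_right h3 (by positivity)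
    _ = _ := by ring

lemma hasSum_Ncoef {N : ℕ} (hN : Even N) (j : Fin N → ℤ) (c : ℂ) :
    HasSum (fun n : ℤ => ((|fpoly j n| - fpoly j n : ℤ) : ℂ) * c) ((Ncoef j : ℂ) * c) := by
  set J := ∑ t, |j t| with hJ
  have hs : ∀ n, n ∉ Icc (-J) J → |fpoly j n| - fpoly j n = 0 := by
    intro n hn
    by_contra h
    exact hn (mem_Icc.mpr (abs_le.mp (supp_bound hN j n h)))
  have e : Ncoef j = ∑ n ∈ Icc (-J) J, (|fpoly j n| - fpoly j n) := by
    unfold Ncoef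
    refine finsum_eq_sum_of_support_subset _ fun n hn => ?_
    by_contra hc
    exact hn (hs n (by simpa using hc))
  rw [e, Int.cast_sum, Finset.sum_mul]
  exact hasSum_sum_of_ne_finset_zero fun n hn => by rw [hs n hn]; simp

/-- the summand attached to a closed path -/
noncomputable def gterm {n : ℕ} (b : ℤ → ℂ) (x : Fin (n + 1) → ℤ) : ℂ :=
  ((|∏ i, x i| - ∏ i, x i : ℤ) : ℂ) * ∏ i, b (x (i + 1) - x i)

lemma hasSum_gterm {n : ℕ} {b : ℤ → ℂ} {Z : ℂ}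
    (hZ : HasSum (fun p : {j : Fin (n + 1) → ℤ // ∑ i, j i = 0} × ℤ =>
          ((|fpoly p.1.1 p.2| - fpoly p.1.1 p.2 : ℤ) : ℂ) * ∏ i, b (p.1.1 i)) Z) :
    HasSum (gterm (n := n) b) Z := by
  rw [← (Equiv.ofBijective _ (pathOf_bij n)).hasSum_iff]
  have e : (gterm (n := n) b) ∘ (Equiv.ofBijective _ (pathOf_bij n))
      = fun p : {j : Fin (n + 1) → ℤ // ∑ i, j i = 0} × ℤ =>
        ((|fpoly p.1.1 p.2| - fpoly p.1.1 p.2 : ℤ) : ℂ) * ∏ i, b (p.1.1 i) := by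
    funext p
    simp only [Function.comp_apply, Equiv.ofBijective_apply, gterm, pathOf_step p.1.2]
    rfl
  rw [e]
  exact hZ

lemma tendsto_box (N : ℕ) : Filter.Tendsto
    (fun M : ℕ => Fintype.piFinset (fun _ : Fin N => Icc (-(M : ℤ)) M)) Filter.atTop Filter.atTop := by
  refine Filter.tendsto_atTop_finset_of_monotone ?_ ?_
  · intro M M' hM
    refine Fintype.piFinset_subset _ _ fun _ => Finset.Icc_subset_Icc ?_ ?_
    · omega
    · omega
  · intro x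
    refine ⟨∑ i, (x i).natAbs, Fintype.mem_piFinset.mpr fun i => ?_⟩
    have : (x i).natAbs ≤ ∑ i, (x i).natAbs :=
      Finset.single_le_sum (f := fun i => (x i).natAbs) (fun _ _ => Nat.zero_le _) (mem_univ i)
    rw [mem_Icc]
    generalize ∑ i, (x i).natAbs = S at this ⊢
    omega

lemma hasSum_fiber {N : ℕ} (hN : Even N) {b : ℤ → ℂ} {Z : ℂ}
    (hZ : HasSum (fun p : {j : Fin N → ℤ // ∑ i, j i = 0} × ℤ =>
          ((|fpoly p.1.1 p.2| - fpoly p.1.1 p.2 : ℤ) : ℂ) * ∏ i, b (p.1.1 i)) Z) :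
    HasSum (fun j : {j : Fin N → ℤ // ∑ i, j i = 0} =>
        (Ncoef j.1 : ℂ) * ∏ i, b (j.1 i)) Z :=
  HasSum.prod_fiberwise hZ fun j => hasSum_Ncoef hN j.1 (∏ i, b (j.1 i))

theorem exists_limit {n : ℕ} (hN : Even (n + 1)) {b : ℤ → ℂ}
    (hb : Summable fun t : ℤ => (1 + |(t : ℝ)|) ^ (n + 1 + 2) * ‖b t‖) :
    ∃ Z : ℂ, HasSum (fun j : {j : Fin (n + 1) → ℤ // ∑ i, j i = 0} =>
        (Ncoef j.1 : ℂ) * ∏ i, b (j.1 i)) Z ∧
      Filter.Tendsto (fun M : ℕ =>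
        ∑ x ∈ Fintype.piFinset (fun _ : Fin (n + 1) => Icc (-(M : ℤ)) M), gterm b x)
        Filter.atTop (nhds Z) := by
  obtain ⟨Z, hZ⟩ := summable_pairs hN hb
  refine ⟨Z, hasSum_fiber hN hZ, ?_⟩
  have h2 : Filter.Tendsto (fun s : Finset (Fin (n + 1) → ℤ) => ∑ x ∈ s, gterm b x)
      Filter.atTop (nhds Z) := hasSum_gterm hZ
  exact h2.comp (tendsto_box (n + 1))

end Pool.Agent.P.MP_ed7f76_gt
end

-- part Pool.Agent.P.MP_ed7f76_gt.Chess
section

/-! Reflection (chessboard) estimates for traces of words in two Hermitian matrices. -/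

namespace Pool.Agent.P.MP_ed7f76_gt

open Matrix Pointwise

variable {ι : Type*} [Fintype ι] [DecidableEq ι]

/-- real part of the trace -/
noncomputable def rt (W : Matrix ι ι ℂ) : ℝ := (Matrix.trace W).re

/-- squared Frobenius norm -/
noncomputable def fs (U : Matrix ι ι ℂ) : ℝ := ∑ i, ∑ j, ‖U i j‖ ^ 2

omit [DecidableEq ι] in
lemma rt_mul_comm (U V : Matrix ι ι ℂ) : rt (U * V) = rt (V * U) := by
  unfold rt; rw [Matrix.trace_mul_comm]

omit [DecidableEq ι] in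
lemma rt_conjT (U : Matrix ι ι ℂ) : rt Uᴴ = rt U := by
  unfold rt; rw [Matrix.trace_conjTranspose]; simp

omit [DecidableEq ι] in
lemma rt_add (U V : Matrix ι ι ℂ) : rt (U + V) = rt U + rt V := by
  unfold rt; rw [Matrix.trace_add]; simp

omit [DecidableEq ι] in
lemma rt_sub (U V : Matrix ι ι ℂ) : rt (U - V) = rt U - rt V := by
  unfold rt; rw [Matrix.trace_sub]; simp

omit [DecidableEq ι] in
lemma fs_nonneg (U : Matrix ι ι ℂ) : 0 ≤ fs U := by
  unfold fs; positivity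

omit [DecidableEq ι] in
lemma rt_star_mul (U : Matrix ι ι ℂ) : rt (Uᴴ * U) = fs U := by
  unfold rt fs
  simp only [Matrix.trace, Matrix.diag, Matrix.mul_apply, Matrix.conjTranspose_apply,
    Complex.re_sum]
  rw [Finset.sum_comm]
  refine Finset.sum_congr rfl fun i _ => Finset.sum_congr rfl fun j _ => ?_
  rw [Complex.star_def, Complex.conj_mul']
  norm_cast

omit [DecidableEq ι] in
lemma polar (U V : Matrix ι ι ℂ) :
    rt (U * V) = (rt (Uᴴ * U) + rt (V * Vᴴ)) / 2 - fs (U - Vᴴ) / 2 := by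
  rw [← rt_star_mul]
  have h1 : (U - Vᴴ)ᴴ * (U - Vᴴ) = Uᴴ * U - (V * U)ᴴ - V * U + V * Vᴴ := by
    simp only [Matrix.conjTranspose_sub, Matrix.conjTranspose_conjTranspose,
      Matrix.conjTranspose_mul, Matrix.sub_mul, Matrix.mul_sub]
    abel
  rw [h1, rt_add, rt_sub, rt_sub, rt_conjT, rt_mul_comm V U]
  ring

lemma star_mem_pow {S : Set (Matrix ι ι ℂ)} (hS : ∀ x ∈ S, xᴴ = x) :
    ∀ (n : ℕ) (U : Matrix ι ι ℂ), U ∈ S ^ n → Uᴴ ∈ S ^ n := by
  intro n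
  induction n with
  | zero => intro U hU; simp only [pow_zero, Set.mem_one] at hU ⊢; rw [hU]; simp
  | succ n ih =>
    intro U hU
    rw [pow_succ] at hU
    obtain ⟨a, ha, b, hb, rfl⟩ := hU
    rw [pow_succ']
    simp only [Matrix.conjTranspose_mul]
    exact Set.mul_mem_mul (by rw [hS b hb]; exact hb) (ih a ha)

lemma mul_mem_pow {S : Set (Matrix ι ι ℂ)} {m n : ℕ} {U V : Matrix ι ι ℂ}
    (hU : U ∈ S ^ m) (hV : V ∈ S ^ n) : U * V ∈ S ^ (m + n) := by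
  rw [pow_add]; exact Set.mul_mem_mul hU hV

lemma split_pow {S : Set (Matrix ι ι ℂ)} {m n : ℕ} {W : Matrix ι ι ℂ}
    (hW : W ∈ S ^ (m + n)) : ∃ U ∈ S ^ m, ∃ V ∈ S ^ n, W = U * V := by
  rw [pow_add] at hW
  obtain ⟨a, ha, b, hb, rfl⟩ := hW
  exact ⟨a, ha, b, hb, rfl⟩

lemma finite_pow {S : Set (Matrix ι ι ℂ)} (hS : S.Finite) : ∀ n : ℕ, (S ^ n).Finite := by
  intro n
  induction n with
  | zero => simp
  | succ n ih => rw [pow_succ]; exact ih.mul hS

/-- reflection: the deficiency at most doubles -/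
lemma reflect {S : Set (Matrix ι ι ℂ)} (hS : ∀ x ∈ S, xᴴ = x) {k : ℕ} {M : ℝ}
    (hM : ∀ W ∈ S ^ (k + k), rt W ≤ M) {U V : Matrix ι ι ℂ} (_hU : U ∈ S ^ k) (hV : V ∈ S ^ k) :
    M - rt (Uᴴ * U) ≤ 2 * (M - rt (U * V)) := by
  have h1 := polar U V
  have h2 := hM _ (mul_mem_pow hV (star_mem_pow hS k V hV))
  have h3 := fs_nonneg (U - Vᴴ)
  linarith

/-- lengthening a run by one letter -/
lemma run_step {S : Set (Matrix ι ι ℂ)} (hS : ∀ x ∈ S, xᴴ = x) {M : ℝ} {r j s : ℕ}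
    (hM : ∀ W ∈ S ^ ((r + 1 + j + (s + 1)) + (r + 1 + j + (s + 1))), rt W ≤ M)
    {x T R : Matrix ι ι ℂ} (hx : x ∈ S) (hT : T ∈ S ^ j)
    (hR : R ∈ S ^ ((s + 1) + (r + 1 + j + (s + 1)))) :
    ∃ R' ∈ S ^ (s + (r + 1 + 1 + j + s)),
      M - rt (x ^ (r + 1 + 1) * T * R') ≤ 2 * (M - rt (x ^ (r + 1) * T * R)) := by
  obtain ⟨R1, hR1, R2, hR2, rfl⟩ := split_pow hR
  have hU : x ^ (r + 1) * T * R1 ∈ S ^ (r + 1 + j + (s + 1)) :=
    mul_mem_pow (mul_mem_pow (Set.pow_mem_pow hx) hT) hR1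
  have h := reflect hS hM hU hR2
  refine ⟨R1 * R1ᴴ * Tᴴ * x ^ r, ?_, ?_⟩
  · have := mul_mem_pow (mul_mem_pow (mul_mem_pow hR1 (star_mem_pow hS _ _ hR1))
      (star_mem_pow hS _ _ hT)) (Set.pow_mem_pow (n := r) hx)
    convert this using 2
    omega
  · have e1 : x ^ (r + 1) * T * R1 * R2 = x ^ (r + 1) * T * (R1 * R2) := by
      simp only [Matrix.mul_assoc]
    have e2 : rt ((x ^ (r + 1) * T * R1)ᴴ * (x ^ (r + 1) * T * R1))
        = rt (x ^ (r + 1 + 1) * T * (R1 * R1ᴴ * Tᴴ * x ^ r)) := by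
      have : (x ^ (r + 1) * T * R1)ᴴ * (x ^ (r + 1) * T * R1)
          = (R1ᴴ * Tᴴ * x ^ r) * (x ^ (r + 1 + 1) * T * R1) := by
        simp only [Matrix.conjTranspose_mul, Matrix.conjTranspose_pow, hS x hx]
        rw [pow_succ' x (r + 1), pow_succ x r]
        simp only [Matrix.mul_assoc]
      rw [this, rt_mul_comm]
      simp only [Matrix.mul_assoc]
    rw [e1, e2] at h
    exact h

/-- lengthening a run to the full half word -/
lemma run_all {S : Set (Matrix ι ι ℂ)} (hS : ∀ x ∈ S, xᴴ = x) {M : ℝ} {j : ℕ}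
    {x T : Matrix ι ι ℂ} (hx : x ∈ S) (hT : T ∈ S ^ j) :
    ∀ (s r : ℕ) (R : Matrix ι ι ℂ),
      (∀ W ∈ S ^ ((r + 1 + j + s) + (r + 1 + j + s)), rt W ≤ M) →
      R ∈ S ^ (s + (r + 1 + j + s)) →
      M - rt ((x ^ (r + 1 + s) * T)ᴴ * (x ^ (r + 1 + s) * T))
        ≤ 2 ^ (s + 1) * (M - rt (x ^ (r + 1) * T * R)) := by
  intro s
  induction s with
  | zero =>
    intro r R hM hR
    have hU : x ^ (r + 1) * T ∈ S ^ (r + 1 + j) := mul_mem_pow (Set.pow_mem_pow hx) hT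
    have hR' : R ∈ S ^ (r + 1 + j) := by simpa using hR
    simpa using reflect hS hM hU hR'
  | succ s ih =>
    intro r R hM hR
    obtain ⟨R', hR', h⟩ := run_step hS hM hx hT hR
    have e : r + 1 + 1 + j + s = r + 1 + j + (s + 1) := by omega
    have h2 := ih (r + 1) R' (by rw [e]; exact hM) hR'
    have e2 : r + 1 + 1 + s = r + 1 + (s + 1) := by omega
    rw [e2] at h2
    have h3 : (0 : ℝ) ≤ 2 ^ (s + 1) := by positivity
    calc _ ≤ _ := h2
      _ ≤ 2 ^ (s + 1) * (2 * (M - rt (x ^ (r + 1) * T * R))) := mul_le_mul_of_nonneg_left h h3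
      _ = _ := by ring

/-- Hoelder-type bound for words. -/
lemma word_le {A B : Matrix ι ι ℂ} (hA : Aᴴ = A) (hB : Bᴴ = B) (s : ℕ)
    (hAB : rt (A ^ ((s + 1) + (s + 1))) = rt (B ^ ((s + 1) + (s + 1)))) :
    ∀ W ∈ ({A, B} : Set (Matrix ι ι ℂ)) ^ ((s + 1) + (s + 1)),
      rt W ≤ rt (A ^ ((s + 1) + (s + 1))) := by
  set S : Set (Matrix ι ι ℂ) := {A, B} with hSdef
  have hS : ∀ x ∈ S, xᴴ = x := by
    rintro x (rfl | rfl) <;> assumption
  have hfin : (S ^ ((s + 1) + (s + 1))).Finite := finite_pow (Set.toFinite S) _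
  have hne : (S ^ ((s + 1) + (s + 1))).Nonempty :=
    ⟨_, Set.pow_mem_pow (show A ∈ S from Or.inl rfl)⟩
  obtain ⟨W0, hW0, hmax⟩ := Set.exists_max_image _ rt hfin hne
  have e : (s + 1) + (s + 1) = 1 + (s + (0 + 1 + 0 + s)) := by omega
  obtain ⟨x, hx, R, hR, hW⟩ := split_pow (e ▸ hW0)
  rw [pow_one] at hx
  have e' : (0 + 1 + 0 + s) + (0 + 1 + 0 + s) = (s + 1) + (s + 1) := by omega
  have h := run_all hS (M := rt W0) (j := 0) hx (T := 1) (by simp) s 0 R (by rw [e']; exact hmax) hR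
  have h1 : x ^ (0 + 1) * 1 * R = W0 := by rw [hW]; simp
  rw [h1, sub_self, mul_zero] at h
  have h2 : (x ^ (0 + 1 + s) * 1)ᴴ * (x ^ (0 + 1 + s) * 1) = x ^ ((s + 1) + (s + 1)) := by
    simp only [mul_one, Matrix.conjTranspose_pow, hS x hx, ← pow_add]
    congr 1
  rw [h2] at h
  intro W hW
  have h3 := hmax W hW
  rcases hx with rfl | rfl
  · linarith
  · linarith

/-- The key consequence: `(A^2 - B^2) A^m` is controlled by the deficiency of `(AB)^(m+2)`. -/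
lemma key_fs {A B : Matrix ι ι ℂ} (hA : Aᴴ = A) (hB : Bᴴ = B) (m : ℕ)
    (hAB : rt (A ^ (2 * (m + 2))) = rt (B ^ (2 * (m + 2)))) :
    fs ((A ^ 2 - B ^ 2) * A ^ m) ≤
      2 ^ (m + 2) * (rt (A ^ (2 * (m + 2))) - rt ((A * B) ^ (m + 2))) := by
  set S : Set (Matrix ι ι ℂ) := {A, B} with hSdef
  have hS : ∀ x ∈ S, xᴴ = x := by
    rintro x (rfl | rfl) <;> assumption
  have hAS : A ∈ S := Or.inl rfl
  have hBS : B ∈ S := Or.inr rfl
  have e0 : 2 * (m + 2) = (m + 1 + 1) + (m + 1 + 1) := by omega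
  rw [e0] at hAB ⊢
  have hM := word_le hA hB (m + 1) hAB
  set M := rt (A ^ ((m + 1 + 1) + (m + 1 + 1))) with hMdef
  have hpow : ∀ n : ℕ, (A * B) ^ n ∈ S ^ (2 * n) := by
    intro n
    induction n with
    | zero => simp
    | succ n ih =>
      rw [pow_succ]
      have h1 : A * B ∈ S ^ (1 + 1) := mul_mem_pow (by simpa using hAS) (by simpa using hBS)
      exact mul_mem_pow ih h1
  have e1 : (0 + 1 + 1 + m) + (0 + 1 + 1 + m) = (m + 1 + 1) + (m + 1 + 1) := by omega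
  have e2 : m + (0 + 1 + 1 + m) = 2 * (m + 1) := by omega
  have h := run_all hS (M := M) (j := 1) hAS (T := B) (by simpa using hBS) m 0 ((A * B) ^ (m + 1))
    (by rw [e1]; exact hM) (by rw [e2]; exact hpow _)
  have e3 : A ^ (0 + 1) * B * (A * B) ^ (m + 1) = (A * B) ^ (m + 2) := by
    rw [pow_succ' (A * B) (m + 1)]; simp
  have e4 : rt ((A ^ (0 + 1 + m) * B)ᴴ * (A ^ (0 + 1 + m) * B))
      = rt (A ^ (m + 2) * (A ^ m * B ^ 2)) := by
    simp only [Matrix.conjTranspose_mul, Matrix.conjTranspose_pow, hA, hB]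
    rw [Matrix.mul_assoc, rt_mul_comm]
    congr 1
    rw [← Matrix.mul_assoc, ← pow_add, ← Matrix.mul_assoc, ← pow_add,
      Matrix.mul_assoc, ← pow_two]
    congr 2; omega
  rw [e3, e4] at h
  have hU : A ^ (m + 2) ∈ S ^ (m + 1 + 1) := Set.pow_mem_pow hAS
  have hV : A ^ m * B ^ 2 ∈ S ^ (m + 1 + 1) :=
    mul_mem_pow (m := m) (n := 2) (Set.pow_mem_pow hAS) (Set.pow_mem_pow hBS)
  have hp := polar (A ^ (m + 2)) (A ^ m * B ^ 2)
  have h1 := hM _ (mul_mem_pow (star_mem_pow hS _ _ hU) hU)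
  have h2 := hM _ (mul_mem_pow hV (star_mem_pow hS _ _ hV))
  have e5 : A ^ (m + 2) - (A ^ m * B ^ 2)ᴴ = (A ^ 2 - B ^ 2) * A ^ m := by
    simp only [Matrix.conjTranspose_mul, Matrix.conjTranspose_pow, hA, hB, Matrix.sub_mul]
    rw [← pow_add, add_comm]
  rw [e5] at hp
  have e6 : (2 : ℝ) ^ (m + 2) = 2 * 2 ^ (m + 1) := by ring
  rw [e6]
  linarith

end Pool.Agent.P.MP_ed7f76_gt
end

-- part Pool.Agent.P.MP_ed7f76_gt.Spec
section

/-! Spectral part: column norms of `A^2 - B^2` are controlled by the deficiency. -/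

namespace Pool.Agent.P.MP_ed7f76_gt

open Matrix

variable {ι : Type*} [Fintype ι] [DecidableEq ι]

lemma exists_diag {Y : Matrix ι ι ℂ} (hY : Yᴴ = Y) :
    ∃ (U : Matrix ι ι ℂ) (d : ι → ℝ), Uᴴ * U = 1 ∧ U * Uᴴ = 1 ∧
      Y = U * diagonal (fun i => (d i : ℂ)) * Uᴴ := by
  have h : Y.IsHermitian := hY
  refine ⟨h.eigenvectorUnitary, h.eigenvalues, ?_, ?_, ?_⟩
  · exact (Matrix.mem_unitaryGroup_iff'.mp h.eigenvectorUnitary.2)
  · exact (Matrix.mem_unitaryGroup_iff.mp h.eigenvectorUnitary.2)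
  · have := h.spectral_theorem
    rw [Unitary.conjStarAlgAut_apply] at this
    exact this

lemma conj_pow {U V X : Matrix ι ι ℂ} (h1 : V * U = 1) (h2 : U * V = 1) (n : ℕ) :
    (U * X * V) ^ n = U * X ^ n * V := by
  induction n with
  | zero => simp [h2]
  | succ n ih =>
    rw [pow_succ, ih, pow_succ]
    calc U * X ^ n * V * (U * X * V) = U * X ^ n * (V * U) * X * V := by
          simp only [Matrix.mul_assoc]
      _ = _ := by rw [h1]; simp only [Matrix.mul_one, Matrix.mul_assoc]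

lemma diag_entry (U : Matrix ι ι ℂ) (d : ι → ℝ) (i : ι) :
    ((U * diagonal (fun i => (d i : ℂ)) * Uᴴ) i i).re = ∑ α, ‖U i α‖ ^ 2 * d α := by
  rw [Matrix.mul_apply, Complex.re_sum]
  refine Finset.sum_congr rfl fun α _ => ?_
  rw [Matrix.mul_diagonal, Matrix.conjTranspose_apply, Complex.star_def]
  have : U i α * (d α : ℂ) * (starRingEnd ℂ) (U i α) = ((‖U i α‖ ^ 2 * d α : ℝ) : ℂ) := by
    rw [mul_right_comm, Complex.mul_conj']; push_cast; ring
  rw [this, Complex.ofReal_re]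

lemma pow_entry {U : Matrix ι ι ℂ} {d : ι → ℝ} (h1 : Uᴴ * U = 1) (h2 : U * Uᴴ = 1) (n : ℕ) (i : ι) :
    (((U * diagonal (fun i => (d i : ℂ)) * Uᴴ) ^ n) i i).re = ∑ α, ‖U i α‖ ^ 2 * d α ^ n := by
  rw [conj_pow h1 h2, Matrix.diagonal_pow]
  have : (fun i => (d i : ℂ)) ^ n = fun i => ((d i ^ n : ℝ) : ℂ) := by
    ext i; simp
  rw [this, diag_entry]

lemma row_sum {U : Matrix ι ι ℂ} (h2 : U * Uᴴ = 1) (i : ι) : ∑ α, ‖U i α‖ ^ 2 = 1 := by
  have := diag_entry U (fun _ => 1) i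
  simp only [Complex.ofReal_one, diagonal_one, h2, one_apply_eq, Complex.one_re,
    mul_one] at this
  exact this.symm

lemma col_sum {U : Matrix ι ι ℂ} (h1 : Uᴴ * U = 1) (α : ι) : ∑ i, ‖U i α‖ ^ 2 = 1 := by
  have := row_sum (U := Uᴴ) (by simpa using h1) α
  simpa using this

lemma jensen_entry {A : Matrix ι ι ℂ} (hA : Aᴴ = A) (m : ℕ) (i : ι) :
    0 ≤ ((A ^ 2) i i).re ∧ ((A ^ 2) i i).re ^ m ≤ ((A ^ (2 * m)) i i).re := by
  obtain ⟨U, d, h1, h2, rfl⟩ := exists_diag hA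
  rw [pow_entry h1 h2, pow_entry h1 h2]
  refine ⟨by positivity, ?_⟩
  have := Real.pow_arith_mean_le_arith_mean_pow Finset.univ (fun α => ‖U i α‖ ^ 2)
    (fun α => d α ^ 2) (fun _ _ => by positivity) (row_sum h2 i) (fun _ _ => by positivity) m
  simpa only [← pow_mul] using this

lemma col_sq {Y : Matrix ι ι ℂ} (hY : Yᴴ = Y) (l : ι) :
    ∑ p, ‖Y p l‖ ^ 2 = ((Y ^ 2) l l).re := by
  rw [pow_two, Matrix.mul_apply, Complex.re_sum]
  refine Finset.sum_congr rfl fun p _ => ?_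
  have : Y l p = (starRingEnd ℂ) (Y p l) := by
    conv_lhs => rw [← hY]
    rfl
  rw [this, Complex.conj_mul']
  norm_cast

lemma fs_diag {U A : Matrix ι ι ℂ} {d : ι → ℝ} (h1 : Uᴴ * U = 1) (h2 : U * Uᴴ = 1)
    (hA : Aᴴ = A) (m : ℕ) :
    fs ((U * diagonal (fun i => (d i : ℂ)) * Uᴴ) * A ^ m)
      = ∑ α, d α ^ 2 * (((Uᴴ * A * U) ^ (2 * m)) α α).re := by
  set D : Matrix ι ι ℂ := diagonal (fun i => (d i : ℂ)) with hD
  have hDH : Dᴴ = D := by
    rw [hD, Matrix.diagonal_conjTranspose]; congr 1; ext i; simp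
  rw [← rt_star_mul, conj_pow h2 h1]
  have e : ((U * D * Uᴴ) * A ^ m)ᴴ * ((U * D * Uᴴ) * A ^ m)
      = (A ^ m * U) * (D * D * Uᴴ * A ^ m) := by
    simp only [Matrix.conjTranspose_mul, Matrix.conjTranspose_pow, hA, hDH,
      Matrix.conjTranspose_conjTranspose]
    calc A ^ m * (U * (D * Uᴴ)) * (U * D * Uᴴ * A ^ m)
        = A ^ m * U * D * (Uᴴ * U) * D * Uᴴ * A ^ m := by simp only [Matrix.mul_assoc]
      _ = _ := by rw [h1]; simp only [Matrix.mul_one, Matrix.mul_assoc]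
  rw [e, rt_mul_comm]
  have e2 : D * D * Uᴴ * A ^ m * (A ^ m * U) = (D * D) * (Uᴴ * A ^ (2 * m) * U) := by
    rw [two_mul, pow_add]; simp only [Matrix.mul_assoc]
  rw [e2, hD, Matrix.diagonal_mul_diagonal]
  unfold rt
  simp only [Matrix.trace, Matrix.diag, Matrix.diagonal_mul, Complex.re_sum]
  refine Finset.sum_congr rfl fun α _ => ?_
  rw [← Complex.ofReal_mul, Complex.re_ofReal_mul, pow_two]

lemma abs_pow_le {x y : ℝ} (hx : 0 ≤ x) (hy : 0 ≤ y) (m : ℕ) : |x - y| ^ m ≤ x ^ m + y ^ m := by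
  rcases le_total x y with h | h
  · have : |x - y| ≤ y := by rw [abs_le]; constructor <;> linarith
    have := pow_le_pow_left₀ (abs_nonneg _) this m
    have : 0 ≤ x ^ m := by positivity
    linarith
  · have : |x - y| ≤ x := by rw [abs_le]; constructor <;> linarith
    have := pow_le_pow_left₀ (abs_nonneg _) this m
    have : 0 ≤ y ^ m := by positivity
    linarith

theorem cols_le_fs {A B : Matrix ι ι ℂ} (hA : Aᴴ = A) (hB : Bᴴ = B) (m : ℕ) :
    ∑ l, (∑ p, ‖(A ^ 2 - B ^ 2) p l‖ ^ 2) ^ (((m + 2 : ℕ) : ℝ) / 2) ≤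
      fs ((A ^ 2 - B ^ 2) * A ^ m) + fs ((A ^ 2 - B ^ 2) * B ^ m) := by
  have hY : (A ^ 2 - B ^ 2)ᴴ = A ^ 2 - B ^ 2 := by
    simp only [Matrix.conjTranspose_sub, Matrix.conjTranspose_pow, hA, hB]
  obtain ⟨U, d, h1, h2, hYd⟩ := exists_diag hY
  have hd : ∀ α, d α = (((Uᴴ * A * U) ^ 2) α α).re - (((Uᴴ * B * U) ^ 2) α α).re := by
    intro α
    have : (Uᴴ * A * U) ^ 2 - (Uᴴ * B * U) ^ 2 = diagonal (fun i => (d i : ℂ)) := by
      rw [conj_pow h2 h1, conj_pow h2 h1, ← Matrix.sub_mul, ← Matrix.mul_sub, hYd]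
      calc Uᴴ * (U * diagonal (fun i => (d i : ℂ)) * Uᴴ) * U
          = (Uᴴ * U) * diagonal (fun i => (d i : ℂ)) * (Uᴴ * U) := by
            simp only [Matrix.mul_assoc]
        _ = _ := by rw [h1]; simp
    have h3 := congrFun (congrFun this α) α
    rw [Matrix.sub_apply, Matrix.diagonal_apply_eq] at h3
    rw [← Complex.sub_re, h3, Complex.ofReal_re]
  have hA' : (Uᴴ * A * U)ᴴ = Uᴴ * A * U := by
    simp only [Matrix.conjTranspose_mul, hA, Matrix.conjTranspose_conjTranspose, Matrix.mul_assoc]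
  have hB' : (Uᴴ * B * U)ᴴ = Uᴴ * B * U := by
    simp only [Matrix.conjTranspose_mul, hB, Matrix.conjTranspose_conjTranspose, Matrix.mul_assoc]
  have step1 : ∑ l, (∑ p, ‖(A ^ 2 - B ^ 2) p l‖ ^ 2) ^ (((m + 2 : ℕ) : ℝ) / 2)
      ≤ ∑ α, |d α| ^ (m + 2) := by
    have : ∀ l, (∑ p, ‖(A ^ 2 - B ^ 2) p l‖ ^ 2) ^ (((m + 2 : ℕ) : ℝ) / 2)
        ≤ ∑ α, ‖U l α‖ ^ 2 * |d α| ^ (m + 2) := by
      intro l
      rw [col_sq hY, hYd, pow_entry h1 h2]
      have hp : (1 : ℝ) ≤ ((m + 2 : ℕ) : ℝ) / 2 := by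
        push_cast; have : (0 : ℝ) ≤ m := by positivity
        linarith
      have := Real.rpow_arith_mean_le_arith_mean_rpow Finset.univ (fun α => ‖U l α‖ ^ 2)
        (fun α => d α ^ 2) (fun _ _ => by positivity) (row_sum h2 l) (fun _ _ => by positivity) hp
      refine this.trans (le_of_eq (Finset.sum_congr rfl fun α _ => ?_))
      congr 1
      rw [← sq_abs, ← Real.rpow_natCast, ← Real.rpow_mul (abs_nonneg _), ← Real.rpow_natCast]
      congr 1
      push_cast; ring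
    refine (Finset.sum_le_sum fun l _ => this l).trans (le_of_eq ?_)
    rw [Finset.sum_comm]
    refine Finset.sum_congr rfl fun α _ => ?_
    rw [← Finset.sum_mul, col_sum h1, one_mul]
  refine step1.trans ?_
  rw [hYd, fs_diag h1 h2 hA, fs_diag h1 h2 hB, ← Finset.sum_add_distrib]
  refine Finset.sum_le_sum fun α _ => ?_
  obtain ⟨a0, a1⟩ := jensen_entry hA' m α
  obtain ⟨b0, b1⟩ := jensen_entry hB' m α
  have h3 := abs_pow_le a0 b0 m
  rw [← hd α] at h3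
  rw [pow_add, sq_abs, ← mul_add, mul_comm]
  exact mul_le_mul_of_nonneg_left (by linarith) (sq_nonneg _)

theorem cols_le {A B : Matrix ι ι ℂ} (hA : Aᴴ = A) (hB : Bᴴ = B) (m : ℕ)
    (hAB : rt (A ^ (2 * (m + 2))) = rt (B ^ (2 * (m + 2)))) :
    ∑ l, (∑ p, ‖(A ^ 2 - B ^ 2) p l‖ ^ 2) ^ (((m + 2 : ℕ) : ℝ) / 2) ≤
      2 ^ (m + 3) * (rt (A ^ (2 * (m + 2))) - rt ((A * B) ^ (m + 2))) := by
  have h1 := cols_le_fs hA hB m
  have h2 := key_fs hA hB m hAB
  have h3 := key_fs hB hA m hAB.symm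
  have e1 : fs ((B ^ 2 - A ^ 2) * B ^ m) = fs ((A ^ 2 - B ^ 2) * B ^ m) := by
    have : (B ^ 2 - A ^ 2) * B ^ m = -((A ^ 2 - B ^ 2) * B ^ m) := by
      rw [← Matrix.neg_mul, neg_sub]
    rw [this]; unfold fs; simp
  have e2 : rt ((B * A) ^ (m + 2)) = rt ((A * B) ^ (m + 2)) := by
    rw [← rt_conjT]
    simp only [Matrix.conjTranspose_pow, Matrix.conjTranspose_mul, hA, hB]
  rw [e1, e2, ← hAB] at h3
  have e3 : (2 : ℝ) ^ (m + 3) = 2 * 2 ^ (m + 2) := by ring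
  rw [e3]
  linarith

end Pool.Agent.P.MP_ed7f76_gt
end

-- part Pool.Agent.P.MP_ed7f76_gt.Trunc
section

/-! The truncated matrices. -/

namespace Pool.Agent.P.MP_ed7f76_gt

open Finset Matrix

/-- sign, with value `1` at `0` -/
noncomputable def sg (p : ℤ) : ℂ := if p < 0 then -1 else 1

/-- square root of the absolute value -/
noncomputable def rq (p : ℤ) : ℂ := ((Real.sqrt |(p : ℝ)| : ℝ) : ℂ)

lemma sg_mul_self (p : ℤ) : sg p * sg p = 1 := by unfold sg; split_ifs <;> simp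

lemma star_sg (p : ℤ) : star (sg p) = sg p := by unfold sg; split_ifs <;> simp

lemma star_rq (p : ℤ) : star (rq p) = rq p := by unfold rq; simp

lemma rq_mul_self (p : ℤ) : rq p * rq p = ((|p| : ℤ) : ℂ) := by
  unfold rq
  rw [← Complex.ofReal_mul, Real.mul_self_sqrt (abs_nonneg _)]
  norm_cast

lemma abs_mul_sg (p : ℤ) : ((|p| : ℤ) : ℂ) * sg p = (p : ℂ) := by
  unfold sg
  split_ifs with h
  · rw [abs_of_neg h]; simp
  · rw [abs_of_nonneg (not_lt.mp h)]; simp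

lemma norm_rq_sq (p : ℤ) : ‖rq p‖ ^ 2 = |(p : ℝ)| := by
  unfold rq
  rw [Complex.norm_real, Real.norm_eq_abs, sq_abs, Real.sq_sqrt (abs_nonneg _)]

/-- truncated matrix of `Λ^{1/2} a Λ^{1/2}` -/
noncomputable def AM (b : ℤ → ℂ) (s : Finset ℤ) : Matrix s s ℂ :=
  Matrix.of fun p q => rq p * b (q - p) * rq q

/-- truncated Hilbert transform -/
noncomputable def HM (s : Finset ℤ) : Matrix s s ℂ := Matrix.diagonal fun p => sg p

lemma HM_mul_self (s : Finset ℤ) : HM s * HM s = 1 := by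
  unfold HM
  rw [Matrix.diagonal_mul_diagonal, ← Matrix.diagonal_one]
  congr 1; funext p; exact sg_mul_self _

lemma HM_herm (s : Finset ℤ) : (HM s)ᴴ = HM s := by
  unfold HM
  rw [Matrix.diagonal_conjTranspose]
  congr 1; funext p; exact star_sg _

lemma AM_herm {b : ℤ → ℂ} (hb : ∀ n, b (-n) = star (b n)) (s : Finset ℤ) : (AM b s)ᴴ = AM b s := by
  ext p q
  simp only [AM, Matrix.conjTranspose_apply, Matrix.of_apply, star_mul', star_rq, ← hb, neg_sub]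
  ring

lemma sum_pi_coe {N : ℕ} (s : Finset ℤ) (g : (Fin N → ℤ) → ℂ) :
    ∑ x : Fin N → s, g (fun i => (x i : ℤ)) = ∑ x ∈ Fintype.piFinset (fun _ : Fin N => s), g x := by
  refine Finset.sum_bij (fun x _ => fun i => (x i : ℤ)) ?_ ?_ ?_ ?_
  · intro x _; exact Fintype.mem_piFinset.mpr fun i => (x i).2
  · intro x _ y _ h; funext i; exact Subtype.ext (congrFun h i)
  · intro y hy
    exact ⟨fun i => ⟨y i, Fintype.mem_piFinset.mp hy i⟩, mem_univ _, rfl⟩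
  · intro _ _; rfl

lemma trunc_eq (n : ℕ) (b : ℤ → ℂ) (s : Finset ℤ) :
    ∑ x ∈ Fintype.piFinset (fun _ : Fin (n + 1) => s), gterm b x
      = Matrix.trace (AM b s ^ (n + 1)) - Matrix.trace ((AM b s * HM s) ^ (n + 1)) := by
  rw [← sum_pi_coe, trace_pow_paths, trace_pow_paths, ← Finset.sum_sub_distrib]
  refine Finset.sum_congr rfl fun x _ => ?_
  simp only [HM, Matrix.mul_diagonal, AM, Matrix.of_apply, gterm, Finset.prod_mul_distrib]
  have e1 : ∏ i, rq (x (i + 1)) = ∏ i, rq (x i) :=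
    Equiv.prod_comp (Equiv.addRight (1 : Fin (n + 1))) (fun i => rq (x i))
  have e2 : ∏ i, sg (x (i + 1)) = ∏ i, sg (x i) :=
    Equiv.prod_comp (Equiv.addRight (1 : Fin (n + 1))) (fun i => sg (x i))
  have e3 : (∏ i, rq (x i)) * ∏ i, rq (x i) = ((|∏ i, (x i : ℤ)| : ℤ) : ℂ) := by
    rw [← Finset.prod_mul_distrib, Finset.abs_prod]
    simp only [rq_mul_self]
    push_cast; rfl
  have e4 : ((∏ i, rq (x i)) * ∏ i, rq (x i)) * ∏ i, sg (x i) = ((∏ i, (x i : ℤ) : ℤ) : ℂ) := by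
    rw [← Finset.prod_mul_distrib, ← Finset.prod_mul_distrib]
    simp only [rq_mul_self, abs_mul_sg]
    push_cast; rfl
  rw [e1, e2, Int.cast_sub, ← e3, ← e4]
  ring

lemma trace_im {ι : Type*} [Fintype ι] {X : Matrix ι ι ℂ}
    (h : Matrix.trace Xᴴ = Matrix.trace X) : (Matrix.trace X).im = 0 := by
  rw [Matrix.trace_conjTranspose] at h
  have := congrArg Complex.im h
  simp only [Complex.star_def, Complex.conj_im] at this
  linarith

/-- truncated kernel -/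
noncomputable def GM (b : ℤ → ℂ) (s : Finset ℤ) (l q : ℤ) : ℂ :=
  ∑ m ∈ s, ((|m| : ℤ) : ℂ) * (b (m + l) * b (q - m))

lemma Y_entry (b : ℤ → ℂ) (s : Finset ℤ) (p q : s) :
    (AM b s ^ 2 - (HM s * AM b s * HM s) ^ 2) p q
      = (1 - sg p * sg q) * (rq p * rq q * GM b s (-p) q) := by
  have e : (AM b s ^ 2) p q = rq p * rq q * GM b s (-p) q := by
    rw [pow_two, Matrix.mul_apply, GM, ← Finset.sum_coe_sort s, Finset.mul_sum]
    refine Finset.sum_congr rfl fun m _ => ?_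
    simp only [AM, Matrix.of_apply, ← rq_mul_self, ← sub_eq_add_neg]
    ring
  rw [conj_pow (HM_mul_self s) (HM_mul_self s), Matrix.sub_apply]
  simp only [HM, Matrix.mul_diagonal, Matrix.diagonal_mul, e]
  ring

theorem trunc_bound {b : ℤ → ℂ} (hb : ∀ n, b (-n) = star (b n)) (m n : ℕ)
    (hn : n + 1 = 2 * (m + 2)) (L M : ℤ) (hL : L ≤ M) :
    (∑ x ∈ Fintype.piFinset (fun _ : Fin (n + 1) => Icc (-M) M), gterm b x).im = 0 ∧
    ∑ q ∈ Icc 1 L, (∑ l ∈ Icc 1 L, (l : ℝ) * q * ‖GM b (Icc (-M) M) l q‖ ^ 2)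
        ^ (((m + 2 : ℕ) : ℝ) / 2) ≤
      2 ^ (m + 3) * (∑ x ∈ Fintype.piFinset (fun _ : Fin (n + 1) => Icc (-M) M), gterm b x).re := by
  rw [trunc_eq, hn]
  set s := Icc (-M) M with hs
  set A := AM b s with hA
  set H := HM s with hH
  have hAh : Aᴴ = A := AM_herm hb s
  have hHh : Hᴴ = H := HM_herm s
  have hHH : H * H = 1 := HM_mul_self s
  have hBh : (H * A * H)ᴴ = H * A * H := by
    simp only [Matrix.conjTranspose_mul, hAh, hHh, Matrix.mul_assoc]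
  have e1 : (A * H) ^ (2 * (m + 2)) = (A * (H * A * H)) ^ (m + 2) := by
    rw [pow_mul, pow_two]; simp only [Matrix.mul_assoc]
  have e2 : rt (A ^ (2 * (m + 2))) = rt ((H * A * H) ^ (2 * (m + 2))) := by
    rw [conj_pow hHH hHH, rt_mul_comm, ← Matrix.mul_assoc, hHH, Matrix.one_mul]
  constructor
  · rw [Complex.sub_im, trace_im, trace_im, sub_zero]
    · rw [Matrix.conjTranspose_pow, Matrix.conjTranspose_mul, hAh, hHh]
      have e3 : H * A = H * (A * H) * H := by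
        simp only [Matrix.mul_assoc, hHH, Matrix.mul_one]
      rw [e3, conj_pow hHH hHH, Matrix.trace_mul_comm, ← Matrix.mul_assoc, hHH, Matrix.one_mul]
    · rw [Matrix.conjTranspose_pow, hAh]
  · have h1 := cols_le hAh hBh m e2
    rw [e1, Complex.sub_re]
    refine le_trans ?_ h1
    have hp : (0 : ℝ) ≤ ((m + 2 : ℕ) : ℝ) / 2 := by positivity
    generalize ((m + 2 : ℕ) : ℝ) / 2 = p at hp
    simp only [hA, hH, Y_entry]
    rw [Finset.sum_coe_sort s (fun q => (∑ p' : s,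
      ‖(1 - sg p' * sg q) * (rq p' * rq q * GM b s (-p') q)‖ ^ 2) ^ p)]
    refine le_trans (Finset.sum_le_sum fun q hq => ?_)
      (Finset.sum_le_sum_of_subset_of_nonneg (s := Icc 1 L) ?_
        fun _ _ _ => Real.rpow_nonneg (Finset.sum_nonneg fun _ _ => sq_nonneg _) _)
    · simp only [mem_Icc] at hq
      have hq0 : (0 : ℝ) ≤ q := by exact_mod_cast (by omega : (0 : ℤ) ≤ q)
      refine Real.rpow_le_rpow (Finset.sum_nonneg fun l hl => ?_) ?_ hp
      · simp only [mem_Icc] at hl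
        have hl0 : (0 : ℝ) ≤ l := by exact_mod_cast (by omega : (0 : ℤ) ≤ l)
        exact mul_nonneg (mul_nonneg hl0 hq0) (sq_nonneg _)
      · rw [Finset.sum_coe_sort s (fun p' =>
          ‖(1 - sg p' * sg q) * (rq p' * rq q * GM b s (-p') q)‖ ^ 2)]
        have h2 : ∑ l ∈ Icc 1 L, (l : ℝ) * q * ‖GM b s l q‖ ^ 2
            ≤ ∑ p' ∈ (Icc 1 L).image (fun l => -l),
              ‖(1 - sg p' * sg q) * (rq p' * rq q * GM b s (-p') q)‖ ^ 2 := by
          rw [Finset.sum_image (by intro x _ y _ h; simpa using h)]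
          refine Finset.sum_le_sum fun l hl => ?_
          simp only [mem_Icc] at hl
          have hl0 : (0 : ℝ) ≤ l := by exact_mod_cast (by omega : (0 : ℤ) ≤ l)
          have a1 : sg (-l) = -1 := by unfold sg; rw [if_pos (by omega)]
          have a2 : sg q = 1 := by unfold sg; rw [if_neg (by omega)]
          rw [a1, a2, neg_neg, norm_mul, norm_mul, norm_mul, mul_pow, mul_pow, mul_pow, norm_rq_sq,
            norm_rq_sq, Int.cast_neg, abs_neg, abs_of_nonneg hl0, abs_of_nonneg hq0]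
          have a3 : ‖(1 : ℂ) - -1 * 1‖ ^ 2 = 4 := by norm_num
          rw [a3]
          have a4 : 0 ≤ (l : ℝ) * q * ‖GM b s l q‖ ^ 2 :=
            mul_nonneg (mul_nonneg hl0 hq0) (sq_nonneg _)
          linarith
        refine h2.trans (Finset.sum_le_sum_of_subset_of_nonneg ?_ fun _ _ _ => sq_nonneg _)
        intro p' hp'
        obtain ⟨l, hl, rfl⟩ := Finset.mem_image.mp hp'
        simp only [hs, mem_Icc] at hl ⊢
        omega
    · intro q hq
      simp only [hs, mem_Icc] at hq ⊢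
      omega

end Pool.Agent.P.MP_ed7f76_gt
end

-- part Pool.Agent.P.MP_ed7f76_gt.Energy
section

/-! Elementary estimates: additive energy lower bound and a discrete bump function. -/

namespace Pool.Agent.P.MP_ed7f76_gt

open Finset

lemma grp {α : Type*} (X : Finset α) (κ : α → ℤ) (f : α → ℂ) (T : Finset ℤ)
    (hT : ∀ x ∈ X, κ x ∈ T) :
    ((∑ s ∈ T, ‖∑ x ∈ X with κ x = s, f x‖ ^ 2 : ℝ) : ℂ)
      = ∑ x ∈ X, ∑ y ∈ X, if κ x = κ y then f x * (starRingEnd ℂ) (f y) else 0 := by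
  push_cast
  have h1 : ∀ s ∈ T, ((‖∑ x ∈ X with κ x = s, f x‖ : ℂ)) ^ 2
      = ∑ x ∈ X, ∑ y ∈ X, if κ x = s then
          (if κ x = κ y then f x * (starRingEnd ℂ) (f y) else 0) else 0 := by
    intro s _
    rw [← Complex.mul_conj', map_sum, Finset.sum_mul_sum, Finset.sum_filter]
    refine Finset.sum_congr rfl fun x _ => ?_
    rw [Finset.sum_filter]
    split_ifs with h
    · refine Finset.sum_congr rfl fun y _ => ?_
      rw [h]
      simp only [eq_comm]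
    · simp
  rw [Finset.sum_congr rfl h1, Finset.sum_comm]
  refine Finset.sum_congr rfl fun x hx => ?_
  rw [Finset.sum_comm]
  refine Finset.sum_congr rfl fun y _ => ?_
  rw [Finset.sum_ite_eq, if_pos (hT x hx)]

lemma energy (R : Finset ℤ) (β : ℤ → ℂ) (T : Finset ℤ) (hT : ∀ x ∈ R, ∀ y ∈ R, x + y ∈ T) :
    (∑ l ∈ R, ‖β l‖ ^ 2) ^ 2 ≤
      ∑ s ∈ T, ‖∑ p ∈ R ×ˢ R with p.1 + p.2 = s, β p.1 * β p.2‖ ^ 2 := by
  classical
  set T' : Finset ℤ := insert 0 ((R ×ˢ R).image fun p => p.1 - p.2) with hT'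
  have h1 := grp (R ×ˢ R) (fun p => p.1 + p.2) (fun p => β p.1 * β p.2) T
    (fun p hp => hT _ (Finset.mem_product.mp hp).1 _ (Finset.mem_product.mp hp).2)
  have h2 := grp (R ×ˢ R) (fun p => p.1 - p.2) (fun p => β p.1 * (starRingEnd ℂ) (β p.2)) T'
    (fun p hp => Finset.mem_insert_of_mem (Finset.mem_image_of_mem _ hp))
  have h3 : (∑ x ∈ R ×ˢ R, ∑ y ∈ R ×ˢ R, if x.1 + x.2 = y.1 + y.2 then
        β x.1 * β x.2 * (starRingEnd ℂ) (β y.1 * β y.2) else 0)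
      = ∑ x ∈ R ×ˢ R, ∑ y ∈ R ×ˢ R, if x.1 - x.2 = y.1 - y.2 then
        β x.1 * (starRingEnd ℂ) (β x.2) * (starRingEnd ℂ) (β y.1 * (starRingEnd ℂ) (β y.2))
        else 0 := by
    simp only [Finset.sum_product]
    refine Finset.sum_congr rfl fun a _ => ?_
    -- left: q, l', q' ; right: l', q', q
    rw [Finset.sum_comm]
    refine Finset.sum_congr rfl fun l' _ => ?_
    rw [Finset.sum_comm]
    refine Finset.sum_congr rfl fun q' _ => Finset.sum_congr rfl fun q _ => ?_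
    have : (a + q = l' + q') ↔ (a - l' = q' - q) := by omega
    simp only [this, map_mul, Complex.conj_conj]
    split_ifs
    · ring
    · rfl
  rw [h3, ← h2] at h1
  have h4 := Complex.ofReal_injective h1
  rw [h4]
  have h5 : (∑ l ∈ R, ‖β l‖ ^ 2) ^ 2
      = ‖∑ p ∈ R ×ˢ R with p.1 - p.2 = 0, β p.1 * (starRingEnd ℂ) (β p.2)‖ ^ 2 := by
    have : (∑ p ∈ R ×ˢ R with p.1 - p.2 = 0, β p.1 * (starRingEnd ℂ) (β p.2))
        = ((∑ l ∈ R, ‖β l‖ ^ 2 : ℝ) : ℂ) := by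
      rw [Finset.sum_filter, Finset.sum_product]
      push_cast
      refine Finset.sum_congr rfl fun l hl => ?_
      simp only [sub_eq_zero]
      rw [Finset.sum_ite_eq, if_pos hl, Complex.mul_conj']
    rw [this, Complex.norm_real, Real.norm_eq_abs, sq_abs]
  rw [h5]
  exact Finset.single_le_sum
    (f := fun s => ‖∑ p ∈ R ×ˢ R with p.1 - p.2 = s, β p.1 * (starRingEnd ℂ) (β p.2)‖ ^ 2)
    (fun _ _ => by positivity) (Finset.mem_insert_self _ _)

/-- the quadratic `(l-h)(5h-l)` -/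
noncomputable def tq (h l : ℤ) : ℝ := ((l : ℝ) - h) * (5 * h - l)

/-- the bump -/
noncomputable def bump (h l : ℤ) : ℝ := (max (tq h l) 0) ^ 2

lemma bump_nonneg (h l : ℤ) : 0 ≤ bump h l := by unfold bump; positivity

lemma bump_zero {h l : ℤ} (hh : 1 ≤ h) (hl : l ≤ h ∨ 5 * h ≤ l) : bump h l = 0 := by
  have hh' : (1 : ℝ) ≤ h := by exact_mod_cast hh
  have : tq h l ≤ 0 := by
    unfold tq
    rcases hl with hl | hl
    · have hl' : (l : ℝ) ≤ h := by exact_mod_cast hl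
      exact mul_nonpos_of_nonpos_of_nonneg (by linarith) (by linarith)
    · have hl' : (5 * h : ℝ) ≤ l := by exact_mod_cast hl
      exact mul_nonpos_of_nonneg_of_nonpos (by linarith) (by linarith)
  unfold bump
  rw [max_eq_right this]; simp

lemma tq_le (h l : ℤ) : tq h l ≤ 4 * (h : ℝ) ^ 2 := by
  unfold tq; nlinarith [sq_nonneg ((l : ℝ) - 3 * h)]

lemma pos_le (h l : ℤ) : max (tq h l) 0 ≤ 4 * (h : ℝ) ^ 2 :=
  max_le (tq_le h l) (by positivity)

lemma bump_le (h l : ℤ) : bump h l ≤ 16 * (h : ℝ) ^ 4 := by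
  unfold bump
  have h1 := pos_le h l
  have h2 : 0 ≤ max (tq h l) 0 := le_max_right _ _
  nlinarith

lemma bump_ge {h l : ℤ} (hh : 1 ≤ h) (h1 : 2 * h ≤ l) (h2 : l < 4 * h) :
    (h : ℝ) ^ 4 ≤ bump h l := by
  have hh' : (1 : ℝ) ≤ h := by exact_mod_cast hh
  have h1' : (2 * h : ℝ) ≤ l := by exact_mod_cast h1
  have h2' : (l : ℝ) ≤ 4 * h := by exact_mod_cast h2.le
  have : (h : ℝ) ^ 2 ≤ tq h l := by
    unfold tq; nlinarith
  have h3 : (h : ℝ) ^ 2 ≤ max (tq h l) 0 := this.trans (le_max_left _ _)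
  unfold bump
  have h4 : 0 ≤ (h : ℝ) ^ 2 := by positivity
  nlinarith

lemma taylor_pos (x y : ℝ) :
    |(max x 0) ^ 2 - (max y 0) ^ 2 - 2 * max y 0 * (x - y)| ≤ (x - y) ^ 2 := by
  rw [abs_le]
  rcases le_total x 0 with hx | hx <;> rcases le_total y 0 with hy | hy <;>
    simp only [max_eq_left, max_eq_right, hx, hy] <;> constructor <;> nlinarith [sq_nonneg (x - y)]

lemma tq_diff {h l : ℤ} (hh : 1 ≤ h) (h1 : h ≤ l) (h2 : l ≤ 5 * h) :
    (tq h (l + 1) - tq h l) ^ 2 ≤ 25 * (h : ℝ) ^ 2 ∧ (tq h (l - 1) - tq h l) ^ 2 ≤ 25 * (h : ℝ) ^ 2 := by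
  have hh' : (1 : ℝ) ≤ h := by exact_mod_cast hh
  have h1' : (h : ℝ) ≤ l := by exact_mod_cast h1
  have h2' : (l : ℝ) ≤ 5 * h := by exact_mod_cast h2
  have e1 : tq h (l + 1) - tq h l = 6 * h - 2 * l - 1 := by unfold tq; push_cast; ring
  have e2 : tq h (l - 1) - tq h l = -(6 * h) + 2 * l - 1 := by unfold tq; push_cast; ring
  rw [e1, e2]
  constructor <;> nlinarith

lemma bump_d1 {h l : ℤ} (hh : 1 ≤ h) (h1 : h ≤ l) (h2 : l ≤ 5 * h) :
    |bump h (l + 1) - bump h l| ≤ 65 * (h : ℝ) ^ 3 ∧ |bump h (l - 1) - bump h l| ≤ 65 * (h : ℝ) ^ 3 := by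
  have hh' : (1 : ℝ) ≤ h := by exact_mod_cast hh
  obtain ⟨d1, d2⟩ := tq_diff hh h1 h2
  have hp := pos_le h l
  have hp0 : 0 ≤ max (tq h l) 0 := le_max_right _ _
  have key : ∀ x : ℝ, (x - tq h l) ^ 2 ≤ 25 * (h : ℝ) ^ 2 →
      |(max x 0) ^ 2 - (max (tq h l) 0) ^ 2| ≤ 65 * (h : ℝ) ^ 3 := by
    intro x hx
    have t := taylor_pos x (tq h l)
    have hx' : |x - tq h l| ≤ 5 * h := by
      apply abs_le_of_sq_le_sq' _ (by linarith) |> abs_le.mpr
      nlinarith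
    have h3 : |2 * max (tq h l) 0 * (x - tq h l)| ≤ 2 * (4 * (h : ℝ) ^ 2) * (5 * h) := by
      rw [abs_mul, abs_of_nonneg (by linarith : (0 : ℝ) ≤ 2 * max (tq h l) 0)]
      exact mul_le_mul (by linarith) hx' (abs_nonneg _) (by positivity)
    have h4 : (h : ℝ) ^ 2 ≤ (h : ℝ) ^ 3 := by nlinarith
    rw [abs_le] at t h3 ⊢
    constructor <;> nlinarith
  exact ⟨key _ d1, key _ d2⟩

lemma bump_d2 {h l : ℤ} (hh : 1 ≤ h) (h1 : h ≤ l) (h2 : l ≤ 5 * h) :
    |bump h (l + 1) - 2 * bump h l + bump h (l - 1)| ≤ 66 * (h : ℝ) ^ 2 := by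
  obtain ⟨d1, d2⟩ := tq_diff hh h1 h2
  have hp := pos_le h l
  have hp0 : 0 ≤ max (tq h l) 0 := le_max_right _ _
  have t1 := taylor_pos (tq h (l + 1)) (tq h l)
  have t2 := taylor_pos (tq h (l - 1)) (tq h l)
  have e : tq h (l + 1) - tq h l + (tq h (l - 1) - tq h l) = -2 := by unfold tq; push_cast; ring
  have e2 : 2 * max (tq h l) 0 * (tq h (l + 1) - tq h l) + 2 * max (tq h l) 0 * (tq h (l - 1) - tq h l)
      = -4 * max (tq h l) 0 := by rw [← mul_add, e]; ring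
  unfold bump
  rw [abs_le] at t1 t2 ⊢
  constructor <;> linarith

/-- second difference of the product weight along an antidiagonal -/
noncomputable def dw (h l q : ℤ) : ℝ :=
  bump h (l - 1) * bump h (q + 1) - 2 * (bump h l * bump h q) + bump h (l + 1) * bump h (q - 1)

lemma dw_zero {h l q : ℤ} (hh : 1 ≤ h) (hq : q < h ∨ 5 * h < q) : dw h l q = 0 := by
  unfold dw
  rw [bump_zero hh (l := q + 1) (by omega), bump_zero hh (l := q) (by omega),
    bump_zero hh (l := q - 1) (by omega)]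
  simp

lemma dw_le {h l q : ℤ} (hh : 1 ≤ h) (h1 : h ≤ l) (h2 : l ≤ 5 * h) (h3 : h ≤ q) (h4 : q ≤ 5 * h) :
    |dw h l q| ≤ 11000 * (h : ℝ) ^ 6 := by
  obtain ⟨a1, a2⟩ := bump_d1 hh h1 h2
  obtain ⟨b1, b2⟩ := bump_d1 hh h3 h4
  have a3 := bump_d2 hh h1 h2
  have b3 := bump_d2 hh h3 h4
  have a0 : |bump h l| ≤ 16 * (h : ℝ) ^ 4 := by
    rw [abs_of_nonneg (bump_nonneg _ _)]; exact bump_le _ _
  have b0 : |bump h q| ≤ 16 * (h : ℝ) ^ 4 := by
    rw [abs_of_nonneg (bump_nonneg _ _)]; exact bump_le _ _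
  have e : dw h l q = bump h l * (bump h (q + 1) - 2 * bump h q + bump h (q - 1))
      + bump h q * (bump h (l + 1) - 2 * bump h l + bump h (l - 1))
      + (bump h (l - 1) - bump h l) * (bump h (q + 1) - bump h q)
      + (bump h (l + 1) - bump h l) * (bump h (q - 1) - bump h q) := by
    unfold dw; ring
  have hh' : (0 : ℝ) ≤ h := by have : (1 : ℝ) ≤ h := by exact_mod_cast hh
                               linarith
  have m1 := mul_le_mul a0 b3 (abs_nonneg _) (by positivity)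
  have m2 := mul_le_mul b0 a3 (abs_nonneg _) (by positivity)
  have m3 := mul_le_mul a2 b1 (abs_nonneg _) (by positivity)
  have m4 := mul_le_mul a1 b2 (abs_nonneg _) (by positivity)
  rw [← abs_mul] at m1 m2 m3 m4
  rw [e]
  have h6 : (0 : ℝ) ≤ (h : ℝ) ^ 6 := by positivity
  rw [abs_le] at m1 m2 m3 m4 ⊢
  constructor <;> nlinarith

end Pool.Agent.P.MP_ed7f76_gt
end

-- part Pool.Agent.P.MP_ed7f76_gt.Window
section

/-! The window estimate and the summation over scales. -/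

namespace Pool.Agent.P.MP_ed7f76_gt

open Finset

lemma sum_shift (w K : ℤ → ℂ) (a b : ℤ) (hw : ∀ l, l ≤ a ∨ b ≤ l → w l = 0) (e : ℤ)
    (he : e = 1 ∨ e = -1) :
    ∑ l ∈ Icc a b, w l * K (l + e) = ∑ l ∈ Icc a b, w (l - e) * K l := by
  rw [← tsum_eq_sum (L := SummationFilter.unconditional ℤ) (s := Icc a b) (f := fun l => w l * K (l + e)),
    ← tsum_eq_sum (L := SummationFilter.unconditional ℤ) (s := Icc a b) (f := fun l => w (l - e) * K l)]
  · rw [← (Equiv.addRight e).tsum_eq (fun l => w (l - e) * K l)]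
    simp
  · intro l hl
    rw [hw _ (by simp only [mem_Icc] at hl; omega), zero_mul]
  · intro l hl
    rw [hw _ (by simp only [mem_Icc] at hl; omega), zero_mul]

lemma conv_eq (β : ℤ → ℂ) (R : Finset ℤ) (hβ : ∀ l, l ∉ R → β l = 0) (s : ℤ) :
    ∑ p ∈ R ×ˢ R with p.1 + p.2 = s, β p.1 * β p.2 = ∑ l ∈ R, β l * β (s - l) := by
  rw [Finset.sum_filter, Finset.sum_product]
  refine Finset.sum_congr rfl fun l _ => ?_
  have : ∀ q : ℤ, (l + q = s) ↔ (s - l = q) := by intro q; omega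
  simp only [this]
  rw [Finset.sum_ite_eq]
  split_ifs with h
  · rfl
  · rw [hβ _ h, mul_zero]

lemma by_parts {b : ℤ → ℂ} {G : ℤ → ℤ → ℂ}
    (hG : ∀ l q, G (l + 1) (q - 1) - 2 * G l q + G (l - 1) (q + 1) = 2 * (b l * b q))
    {h : ℤ} (hh : 1 ≤ h) (s : ℤ) :
    2 * ∑ l ∈ Icc h (5 * h), ((bump h l : ℂ) * b l) * ((bump h (s - l) : ℂ) * b (s - l))
      = ∑ l ∈ Icc h (5 * h), (dw h l (s - l) : ℂ) * G l (s - l) := by
  set w : ℤ → ℂ := fun l => (bump h l : ℂ) * (bump h (s - l) : ℂ) with hw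
  have hw0 : ∀ l, l ≤ h ∨ 5 * h ≤ l → w l = 0 := by
    intro l hl; simp only [hw, bump_zero hh hl]; simp
  have h1 := sum_shift w (fun l => G l (s - l)) h (5 * h) hw0 1 (Or.inl rfl)
  have h2 := sum_shift w (fun l => G l (s - l)) h (5 * h) hw0 (-1) (Or.inr rfl)
  have h3 : 2 * ∑ l ∈ Icc h (5 * h), ((bump h l : ℂ) * b l) * ((bump h (s - l) : ℂ) * b (s - l))
      = ∑ l ∈ Icc h (5 * h), w l * G (l + 1) (s - (l + 1))
        - 2 * ∑ l ∈ Icc h (5 * h), w l * G l (s - l)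
        + ∑ l ∈ Icc h (5 * h), w l * G (l + -1) (s - (l + -1)) := by
    rw [Finset.mul_sum, Finset.mul_sum, ← Finset.sum_sub_distrib, ← Finset.sum_add_distrib]
    refine Finset.sum_congr rfl fun l _ => ?_
    have := hG l (s - l)
    have e1 : s - (l + 1) = s - l - 1 := by ring
    have e2 : s - (l + -1) = s - l + 1 := by ring
    have e3 : l + -1 = l - 1 := by ring
    rw [e1, e2, e3]
    simp only [hw]
    linear_combination (-(bump h l : ℂ) * (bump h (s - l) : ℂ)) * this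
  rw [h3, h1, h2, Finset.mul_sum, ← Finset.sum_sub_distrib, ← Finset.sum_add_distrib]
  refine Finset.sum_congr rfl fun l _ => ?_
  have e1 : s - (l - 1) = s - l + 1 := by ring
  have e2 : s - (l - -1) = s - l - 1 := by ring
  have e3 : l - -1 = l + 1 := by ring
  simp only [hw, dw, e1, e2]
  simp only [e3]
  push_cast
  ring

lemma window {b : ℤ → ℂ} {G : ℤ → ℤ → ℂ}
    (hG : ∀ l q, G (l + 1) (q - 1) - 2 * G l q + G (l - 1) (q + 1) = 2 * (b l * b q))
    {h : ℤ} (hh : 1 ≤ h) :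
    (h : ℝ) ^ 5 * (∑ n ∈ Ico (2 * h) (4 * h), ‖b n‖ ^ 2) ^ 2 ≤
      200000000 * ∑ q ∈ Icc h (5 * h), ∑ l ∈ Icc h (5 * h), (l : ℝ) * q * ‖G l q‖ ^ 2 := by
  have hh' : (1 : ℝ) ≤ h := by exact_mod_cast hh
  have hpos : (0 : ℝ) < h := by linarith
  set R := Icc h (5 * h) with hR
  set β : ℤ → ℂ := fun l => (bump h l : ℂ) * b l with hβ
  have hβ0 : ∀ l, l ∉ R → β l = 0 := by
    intro l hl
    simp only [hβ, bump_zero hh (l := l) (by simp only [hR, mem_Icc] at hl; omega)]; simp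
  have hE := energy R β (Icc (2 * h) (10 * h)) (by
    intro x hx y hy; simp only [hR, mem_Icc] at hx hy ⊢; omega)
  simp only [conv_eq β R hβ0] at hE
  set F : ℝ := ∑ l ∈ R, ∑ q ∈ R, ‖G l q‖ ^ 2 with hF
  have hcard : (R.card : ℝ) ≤ 5 * h := by
    have : (R.card : ℤ) = 5 * h + 1 - h := by
      rw [hR, Int.card_Icc, Int.toNat_of_nonneg (by omega)]
    have h2 : (R.card : ℤ) ≤ 5 * h := by omega
    exact_mod_cast h2
  have hc : ∀ s, 4 * ‖∑ l ∈ R, β l * β (s - l)‖ ^ 2 ≤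
      5 * h * (11000 * (h : ℝ) ^ 6) ^ 2 * ∑ l ∈ R, if s - l ∈ R then ‖G l (s - l)‖ ^ 2 else 0 := by
    intro s
    have h1 := by_parts hG hh s
    have h2 : 4 * ‖∑ l ∈ R, β l * β (s - l)‖ ^ 2
        = ‖∑ l ∈ R, (dw h l (s - l) : ℂ) * G l (s - l)‖ ^ 2 := by
      rw [← h1, norm_mul]; simp only [Complex.norm_ofNat]; ring
    rw [h2]
    have h3 : ‖∑ l ∈ R, (dw h l (s - l) : ℂ) * G l (s - l)‖
        ≤ ∑ l ∈ R, ‖(dw h l (s - l) : ℂ) * G l (s - l)‖ := norm_sum_le _ _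
    have h4 : (∑ l ∈ R, ‖(dw h l (s - l) : ℂ) * G l (s - l)‖) ^ 2
        ≤ R.card * ∑ l ∈ R, ‖(dw h l (s - l) : ℂ) * G l (s - l)‖ ^ 2 := sq_sum_le_card_mul_sum_sq
    have h5 : ∑ l ∈ R, ‖(dw h l (s - l) : ℂ) * G l (s - l)‖ ^ 2
        ≤ (11000 * (h : ℝ) ^ 6) ^ 2 * ∑ l ∈ R, if s - l ∈ R then ‖G l (s - l)‖ ^ 2 else 0 := by
      rw [Finset.mul_sum]
      refine Finset.sum_le_sum fun l hl => ?_
      split_ifs with hq
      · rw [norm_mul, mul_pow, Complex.norm_real, Real.norm_eq_abs]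
        simp only [hR, mem_Icc] at hl hq
        have := dw_le hh hl.1 hl.2 hq.1 hq.2
        exact mul_le_mul_of_nonneg_right (pow_le_pow_left₀ (abs_nonneg _) this 2) (by positivity)
      · rw [dw_zero hh (by simp only [hR, mem_Icc] at hq; omega)]; simp
    calc _ ≤ (∑ l ∈ R, ‖(dw h l (s - l) : ℂ) * G l (s - l)‖) ^ 2 :=
          pow_le_pow_left₀ (norm_nonneg _) h3 2
      _ ≤ _ := h4
      _ ≤ (5 * h) * ((11000 * (h : ℝ) ^ 6) ^ 2 *
            ∑ l ∈ R, if s - l ∈ R then ‖G l (s - l)‖ ^ 2 else 0) :=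
          mul_le_mul hcard h5 (by positivity) (by positivity)
      _ = _ := by ring
  have hsum : ∑ s ∈ Icc (2 * h) (10 * h), (∑ l ∈ R, if s - l ∈ R then ‖G l (s - l)‖ ^ 2 else 0)
      ≤ F := by
    rw [Finset.sum_comm]
    refine Finset.sum_le_sum fun l _ => ?_
    rw [← Finset.sum_filter]
    rw [← Finset.sum_image (g := fun s => s - l) (f := fun q => ‖G l q‖ ^ 2)
      (by intro x _ y _ hxy; simpa using hxy)]
    refine Finset.sum_le_sum_of_subset_of_nonneg ?_ (fun _ _ _ => by positivity)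
    intro q hq
    obtain ⟨s, hs, rfl⟩ := Finset.mem_image.mp hq
    exact (Finset.mem_filter.mp hs).2
  have h6 : 4 * (∑ l ∈ R, ‖β l‖ ^ 2) ^ 2 ≤ 5 * h * (11000 * (h : ℝ) ^ 6) ^ 2 * F := by
    calc _ ≤ 4 * ∑ s ∈ Icc (2 * h) (10 * h), ‖∑ l ∈ R, β l * β (s - l)‖ ^ 2 := by linarith
      _ ≤ ∑ s ∈ Icc (2 * h) (10 * h), (5 * h * (11000 * (h : ℝ) ^ 6) ^ 2 *
            ∑ l ∈ R, if s - l ∈ R then ‖G l (s - l)‖ ^ 2 else 0) := by
          rw [Finset.mul_sum]; exact Finset.sum_le_sum fun s _ => hc s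
      _ ≤ _ := by
          rw [← Finset.mul_sum]; exact mul_le_mul_of_nonneg_left hsum (by positivity)
  have h7 : (h : ℝ) ^ 8 * ∑ n ∈ Ico (2 * h) (4 * h), ‖b n‖ ^ 2 ≤ ∑ l ∈ R, ‖β l‖ ^ 2 := by
    rw [Finset.mul_sum]
    refine le_trans (Finset.sum_le_sum fun n hn => ?_)
      (Finset.sum_le_sum_of_subset_of_nonneg (s := Ico (2 * h) (4 * h)) ?_ (fun _ _ _ => by positivity))
    · simp only [hβ, norm_mul, mul_pow, Complex.norm_real, Real.norm_eq_abs, sq_abs]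
      simp only [mem_Ico] at hn
      have := bump_ge hh hn.1 hn.2
      have h8 : (h : ℝ) ^ 8 ≤ bump h n ^ 2 := by
        calc (h : ℝ) ^ 8 = ((h : ℝ) ^ 4) ^ 2 := by ring
          _ ≤ _ := pow_le_pow_left₀ (by positivity) this 2
      exact mul_le_mul_of_nonneg_right h8 (by positivity)
    · intro n hn; simp only [hR, mem_Ico, mem_Icc] at hn ⊢; omega
  have h8 : (h : ℝ) ^ 2 * F ≤ ∑ q ∈ R, ∑ l ∈ R, (l : ℝ) * q * ‖G l q‖ ^ 2 := by
    rw [Finset.sum_comm, hF, Finset.mul_sum]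
    refine Finset.sum_le_sum fun l hl => ?_
    rw [Finset.mul_sum]
    refine Finset.sum_le_sum fun q hq => ?_
    simp only [hR, mem_Icc] at hl hq
    have a1 : (h : ℝ) ≤ l := by exact_mod_cast hl.1
    have a2 : (h : ℝ) ≤ q := by exact_mod_cast hq.1
    have a3 : (h : ℝ) ^ 2 ≤ (l : ℝ) * q := by
      rw [pow_two]; exact mul_le_mul a1 a2 hpos.le (hpos.le.trans a1)
    exact mul_le_mul_of_nonneg_right a3 (sq_nonneg _)
  have hS0 : 0 ≤ ∑ n ∈ Ico (2 * h) (4 * h), ‖b n‖ ^ 2 := Finset.sum_nonneg fun _ _ => sq_nonneg _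
  have hF0 : 0 ≤ F := Finset.sum_nonneg fun _ _ => Finset.sum_nonneg fun _ _ => sq_nonneg _
  generalize ∑ n ∈ Ico (2 * h) (4 * h), ‖b n‖ ^ 2 = S at hS0 h7 ⊢
  generalize ∑ l ∈ R, ‖β l‖ ^ 2 = B at h6 h7
  generalize ∑ q ∈ R, ∑ l ∈ R, (l : ℝ) * q * ‖G l q‖ ^ 2 = T at h8 ⊢
  clear_value F
  clear hsum hc hE hF hβ0 hβ hcard hG
  have h9 : ((h : ℝ) ^ 8 * S) ^ 2 ≤ B ^ 2 :=
    pow_le_pow_left₀ (by positivity) h7 2
  have h10 : (h : ℝ) ^ 11 * ((h : ℝ) ^ 5 * S ^ 2) ≤ (h : ℝ) ^ 11 * (200000000 * ((h : ℝ) ^ 2 * F)) := by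
    have : 0 ≤ (h : ℝ) ^ 13 * F := by positivity
    nlinarith
  have h11 := le_of_mul_le_mul_left h10 (by positivity)
  linarith

lemma sum_pow_le {ι : Type*} (s : Finset ι) (x : ι → ℝ) (hx : ∀ i ∈ s, 0 ≤ x i) (k : ℕ) :
    ∑ i ∈ s, x i ^ (k + 1) ≤ (∑ i ∈ s, x i) ^ (k + 1) := by
  rw [pow_succ', Finset.sum_mul]
  refine Finset.sum_le_sum fun i hi => ?_
  rw [pow_succ']
  exact mul_le_mul_of_nonneg_left
    (pow_le_pow_left₀ (hx i hi) (Finset.single_le_sum hx hi) k) (hx i hi)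

lemma window_pow {b : ℤ → ℂ} {G : ℤ → ℤ → ℂ}
    (hG : ∀ l q, G (l + 1) (q - 1) - 2 * G l q + G (l - 1) (q + 1) = 2 * (b l * b q))
    (m : ℕ) {h L : ℤ} (hh : 1 ≤ h) (hL : h ≤ L) :
    (h : ℝ) ^ (2 * (m + 2)) * ∑ n ∈ Ico (2 * h) (4 * h), ‖b n‖ ^ (2 * (m + 2)) ≤
      (1000000000 : ℝ) ^ (((m + 2 : ℕ) : ℝ) / 2) * ((h : ℝ)⁻¹ * ∑ q ∈ Icc h (5 * h),
        (∑ l ∈ Icc 1 (5 * L), (l : ℝ) * q * ‖G l q‖ ^ 2) ^ (((m + 2 : ℕ) : ℝ) / 2)) := by
  have hh' : (1 : ℝ) ≤ h := by exact_mod_cast hh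
  have hpos : (0 : ℝ) < h := by linarith
  set p : ℝ := ((m + 2 : ℕ) : ℝ) / 2 with hp
  have hp1 : 1 ≤ p := by
    rw [hp]; push_cast; have : (0 : ℝ) ≤ m := by positivity
    linarith
  set col : ℤ → ℝ := fun q => ∑ l ∈ Icc 1 (5 * L), (l : ℝ) * q * ‖G l q‖ ^ 2 with hcol
  have hcol0 : ∀ q ∈ Icc h (5 * h), 0 ≤ col q := by
    intro q hq
    refine Finset.sum_nonneg fun l hl => ?_
    simp only [mem_Icc] at hl hq
    have a1 : (0 : ℝ) ≤ l := by exact_mod_cast (by omega : (0 : ℤ) ≤ l)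
    have a2 : (0 : ℝ) ≤ q := by exact_mod_cast (by omega : (0 : ℤ) ≤ q)
    positivity
  set S := ∑ n ∈ Ico (2 * h) (4 * h), ‖b n‖ ^ 2 with hS
  have hS0 : 0 ≤ S := by positivity
  have h1 : (h : ℝ) ^ 5 * S ^ 2 ≤ 200000000 * ∑ q ∈ Icc h (5 * h), col q := by
    refine (window hG hh).trans (mul_le_mul_of_nonneg_left (Finset.sum_le_sum fun q hq => ?_)
      (by norm_num))
    refine Finset.sum_le_sum_of_subset_of_nonneg ?_ fun l hl _ => ?_
    · intro l hl; simp only [mem_Icc] at hl ⊢; omega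
    · simp only [mem_Icc] at hl hq
      have a1 : (0 : ℝ) ≤ l := by exact_mod_cast (by omega : (0 : ℤ) ≤ l)
      have a2 : (0 : ℝ) ≤ q := by exact_mod_cast (by omega : (0 : ℤ) ≤ q)
      positivity
  have hcard : ((Icc h (5 * h)).card : ℝ) ≤ 5 * h := by
    have : ((Icc h (5 * h)).card : ℤ) = 5 * h + 1 - h := by
      rw [Int.card_Icc, Int.toNat_of_nonneg (by omega)]
    have h2 : ((Icc h (5 * h)).card : ℤ) ≤ 5 * h := by omega
    exact_mod_cast h2
  have h2 := Real.rpow_sum_le_const_mul_sum_rpow_of_nonneg (Icc h (5 * h)) hp1 hcol0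
  have h3 := Real.rpow_le_rpow (by positivity) h1 (by linarith : 0 ≤ p)
  have hsum0 : 0 ≤ ∑ q ∈ Icc h (5 * h), col q := Finset.sum_nonneg hcol0
  have hT0 : 0 ≤ ∑ q ∈ Icc h (5 * h), col q ^ p :=
    Finset.sum_nonneg fun q hq => Real.rpow_nonneg (hcol0 q hq) _
  set T := ∑ q ∈ Icc h (5 * h), col q ^ p with hT
  rw [Real.mul_rpow (by norm_num) hsum0] at h3
  have h4 : ((Icc h (5 * h)).card : ℝ) ^ (p - 1) ≤ 5 ^ p * ((h : ℝ) ^ p * (h : ℝ)⁻¹) := by
    calc _ ≤ (5 * (h : ℝ)) ^ (p - 1) := Real.rpow_le_rpow (by positivity) hcard (by linarith)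
      _ = 5 ^ (p - 1) * (h : ℝ) ^ (p - 1) := Real.mul_rpow (by norm_num) hpos.le
      _ ≤ 5 ^ p * (h : ℝ) ^ (p - 1) := mul_le_mul_of_nonneg_right
          (Real.rpow_le_rpow_of_exponent_le (by norm_num) (by linarith)) (by positivity)
      _ = _ := by rw [Real.rpow_sub_one hpos.ne', div_eq_mul_inv]
  have h5 : ((h : ℝ) ^ 5 * S ^ 2) ^ p = (h : ℝ) ^ p * ((h : ℝ) ^ (2 * (m + 2)) * S ^ (m + 2)) := by
    have e1 : (h : ℝ) ^ 5 * S ^ 2 = h * ((h : ℝ) ^ 2 * S) ^ 2 := by ring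
    rw [e1, Real.mul_rpow hpos.le (by positivity)]
    congr 1
    rw [← Real.rpow_natCast _ 2, ← Real.rpow_mul (by positivity)]
    have e2 : ((2 : ℕ) : ℝ) * p = ((m + 2 : ℕ) : ℝ) := by rw [hp]; push_cast; ring
    rw [e2, Real.rpow_natCast, mul_pow, ← pow_mul]
  have h6 : ∑ n ∈ Ico (2 * h) (4 * h), ‖b n‖ ^ (2 * (m + 2)) ≤ S ^ (m + 2) := by
    simp only [pow_mul]
    exact sum_pow_le _ (fun n => ‖b n‖ ^ 2) (fun _ _ => by positivity) (m + 1)
  have h7 : (1000000000 : ℝ) ^ p = 200000000 ^ p * 5 ^ p := by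
    rw [← Real.mul_rpow (by norm_num) (by norm_num)]; norm_num
  have hhp : (0 : ℝ) < (h : ℝ) ^ p := Real.rpow_pos_of_pos hpos _
  have h8 : (h : ℝ) ^ p * ((h : ℝ) ^ (2 * (m + 2)) * S ^ (m + 2))
      ≤ (h : ℝ) ^ p * ((1000000000 : ℝ) ^ p * ((h : ℝ)⁻¹ * T)) := by
    rw [← h5, h7]
    calc _ ≤ _ := h3
      _ ≤ 200000000 ^ p * ((5 ^ p * ((h : ℝ) ^ p * (h : ℝ)⁻¹)) * T) :=
          mul_le_mul_of_nonneg_left (h2.trans (mul_le_mul_of_nonneg_right h4 hT0)) (by positivity)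
      _ = _ := by ring
  have h9 := le_of_mul_le_mul_left h8 hhp
  exact (mul_le_mul_of_nonneg_left h6 (by positivity)).trans h9

theorem scales {b : ℤ → ℂ} {G : ℤ → ℤ → ℂ}
    (hG : ∀ l q, G (l + 1) (q - 1) - 2 * G l q + G (l - 1) (q + 1) = 2 * (b l * b q))
    (m : ℕ) (L : ℤ) :
    ∑ n ∈ Icc 2 L, (n : ℝ) ^ (2 * (m + 2) + 1) * ‖b n‖ ^ (2 * (m + 2)) ≤
      (40 * 4 ^ (2 * (m + 2)) * (1000000000 : ℝ) ^ (((m + 2 : ℕ) : ℝ) / 2)) *
      ∑ q ∈ Icc 1 (5 * L),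
        (∑ l ∈ Icc 1 (5 * L), (l : ℝ) * q * ‖G l q‖ ^ 2) ^ (((m + 2 : ℕ) : ℝ) / 2) := by
  set p : ℝ := ((m + 2 : ℕ) : ℝ) / 2 with hp
  set k2 := 2 * (m + 2) with hk2
  set col : ℤ → ℝ := fun q => (∑ l ∈ Icc 1 (5 * L), (l : ℝ) * q * ‖G l q‖ ^ 2) ^ p with hcol
  have hcol0 : ∀ q ∈ Icc 1 (5 * L), 0 ≤ col q := by
    intro q hq
    refine Real.rpow_nonneg (Finset.sum_nonneg fun l hl => ?_) _
    simp only [mem_Icc] at hl hq
    have a1 : (0 : ℝ) ≤ l := by exact_mod_cast (by omega : (0 : ℤ) ≤ l)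
    have a2 : (0 : ℝ) ≤ q := by exact_mod_cast (by omega : (0 : ℤ) ≤ q)
    positivity
  have hD : (0 : ℝ) ≤ (1000000000 : ℝ) ^ p := by positivity
  have h1 : ∑ h ∈ Icc 1 L, (h : ℝ) ^ k2 * ∑ n ∈ Ico (2 * h) (4 * h), ‖b n‖ ^ k2
      ≤ (1000000000 : ℝ) ^ p * ∑ h ∈ Icc 1 L, ((h : ℝ)⁻¹ * ∑ q ∈ Icc h (5 * h), col q) := by
    rw [Finset.mul_sum]
    refine Finset.sum_le_sum fun h hh => ?_
    simp only [mem_Icc] at hh
    exact window_pow hG m hh.1 hh.2
  have h2 : ∑ h ∈ Icc 1 L, ((h : ℝ)⁻¹ * ∑ q ∈ Icc h (5 * h), col q)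
      ≤ 5 * ∑ q ∈ Icc 1 (5 * L), col q := by
    have e : ∀ h ∈ Icc 1 L, (h : ℝ)⁻¹ * ∑ q ∈ Icc h (5 * h), col q
        = ∑ q ∈ Icc 1 (5 * L), (if h ≤ q ∧ q ≤ 5 * h then (h : ℝ)⁻¹ else 0) * col q := by
      intro h hh
      simp only [ite_mul, zero_mul]
      rw [← Finset.sum_filter, Finset.mul_sum]
      refine Finset.sum_congr ?_ fun _ _ => rfl
      ext q; simp only [mem_Icc, mem_filter] at hh ⊢; omega
    rw [Finset.sum_congr rfl e, Finset.sum_comm, Finset.mul_sum]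
    refine Finset.sum_le_sum fun q hq => ?_
    rw [← Finset.sum_mul]
    refine mul_le_mul_of_nonneg_right ?_ (hcol0 q hq)
    simp only [mem_Icc] at hq
    have hq0 : (0 : ℝ) < q := by exact_mod_cast (by omega : (0 : ℤ) < q)
    rw [← Finset.sum_filter]
    have hsub : (Icc 1 L).filter (fun h => h ≤ q ∧ q ≤ 5 * h) ⊆ Icc 1 q := by
      intro h hh; simp only [mem_Icc, mem_filter] at hh ⊢; omega
    have hc : (((Icc 1 L).filter (fun h => h ≤ q ∧ q ≤ 5 * h)).card : ℝ) ≤ q := by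
      have a1 := Finset.card_le_card hsub
      have a2 : ((Icc 1 q).card : ℤ) = q + 1 - 1 := by
        rw [Int.card_Icc, Int.toNat_of_nonneg (by omega)]
      have a3 : (((Icc 1 L).filter (fun h => h ≤ q ∧ q ≤ 5 * h)).card : ℤ) ≤ q := by omega
      exact_mod_cast a3
    have hb : ∀ h ∈ (Icc 1 L).filter (fun h => h ≤ q ∧ q ≤ 5 * h), (h : ℝ)⁻¹ ≤ 5 / q := by
      intro h hh
      simp only [mem_Icc, mem_filter] at hh
      have a1 : (0 : ℝ) < h := by exact_mod_cast (by omega : (0 : ℤ) < h)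
      have a2 : (q : ℝ) ≤ 5 * h := by exact_mod_cast hh.2.2
      rw [inv_eq_one_div, div_le_div_iff₀ a1 hq0]; linarith
    have := Finset.sum_le_card_nsmul _ _ _ hb
    rw [nsmul_eq_mul] at this
    calc _ ≤ _ := this
      _ ≤ q * (5 / q) := mul_le_mul_of_nonneg_right hc (by positivity)
      _ = 5 := by field_simp
  have h3 : ∑ n ∈ Icc 2 L, (n : ℝ) ^ (k2 + 1) * ‖b n‖ ^ k2
      ≤ 8 * 4 ^ k2 * ∑ h ∈ Icc 1 L, (h : ℝ) ^ k2 * ∑ n ∈ Ico (2 * h) (4 * h), ‖b n‖ ^ k2 := by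
    have e : ∀ h ∈ Icc 1 L,
        ∑ n ∈ Icc 2 L, (if 2 * h ≤ n ∧ n < 4 * h then (h : ℝ) ^ k2 else 0) * ‖b n‖ ^ k2
        ≤ (h : ℝ) ^ k2 * ∑ n ∈ Ico (2 * h) (4 * h), ‖b n‖ ^ k2 := by
      intro h hh
      simp only [ite_mul, zero_mul]
      rw [← Finset.sum_filter, Finset.mul_sum]
      simp only [mem_Icc] at hh
      have a1 : (0 : ℝ) < h := by exact_mod_cast (by omega : (0 : ℤ) < h)
      refine Finset.sum_le_sum_of_subset_of_nonneg ?_ fun _ _ _ => by positivity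
      intro n hn; simp only [mem_Icc, mem_filter, mem_Ico] at hn ⊢; omega
    refine le_trans ?_ (mul_le_mul_of_nonneg_left (Finset.sum_le_sum e) (by positivity))
    rw [Finset.sum_comm, Finset.mul_sum]
    refine Finset.sum_le_sum fun n hn => ?_
    rw [← Finset.sum_mul, ← mul_assoc]
    refine mul_le_mul_of_nonneg_right ?_ (by positivity)
    simp only [mem_Icc] at hn
    have hn0 : (0 : ℝ) < n := by exact_mod_cast (by omega : (0 : ℤ) < n)
    rw [← Finset.sum_filter]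
    have hsub : Ioc (n / 4) (n / 2) ⊆ (Icc 1 L).filter (fun h => 2 * h ≤ n ∧ n < 4 * h) := by
      intro h hh; simp only [mem_Icc, mem_filter, mem_Ioc] at hh ⊢; omega
    have hc : (n : ℝ) ≤ 8 * (((Icc 1 L).filter (fun h => 2 * h ≤ n ∧ n < 4 * h)).card : ℝ) := by
      have a1 := Finset.card_le_card hsub
      have a2 : ((Ioc (n / 4) (n / 2)).card : ℤ) = n / 2 - n / 4 := by
        rw [Int.card_Ioc, Int.toNat_of_nonneg (by omega)]
      have a3 : n ≤ 8 * (((Icc 1 L).filter (fun h => 2 * h ≤ n ∧ n < 4 * h)).card : ℤ) := by omega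
      exact_mod_cast a3
    have hb : ∀ h ∈ (Icc 1 L).filter (fun h => 2 * h ≤ n ∧ n < 4 * h),
        ((n : ℝ) / 4) ^ k2 ≤ (h : ℝ) ^ k2 := by
      intro h hh
      simp only [mem_Icc, mem_filter] at hh
      have a2 : (n : ℝ) ≤ 4 * h := by exact_mod_cast hh.2.2.le
      exact pow_le_pow_left₀ (by positivity) (by linarith) _
    have := Finset.card_nsmul_le_sum _ _ _ hb
    rw [nsmul_eq_mul] at this
    calc (n : ℝ) ^ (k2 + 1) = 4 ^ k2 * (n * ((n : ℝ) / 4) ^ k2) := by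
          rw [div_pow]; field_simp; ring
      _ ≤ 4 ^ k2 * ((8 * (((Icc 1 L).filter (fun h => 2 * h ≤ n ∧ n < 4 * h)).card : ℝ))
            * ((n : ℝ) / 4) ^ k2) :=
          mul_le_mul_of_nonneg_left (mul_le_mul_of_nonneg_right hc (by positivity)) (by positivity)
      _ = 8 * 4 ^ k2 * ((((Icc 1 L).filter (fun h => 2 * h ≤ n ∧ n < 4 * h)).card : ℝ)
            * ((n : ℝ) / 4) ^ k2) := by ring
      _ ≤ _ := mul_le_mul_of_nonneg_left this (by positivity)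
  calc _ ≤ _ := h3
    _ ≤ 8 * 4 ^ k2 * ((1000000000 : ℝ) ^ p * (5 * ∑ q ∈ Icc 1 (5 * L), col q)) :=
        mul_le_mul_of_nonneg_left (h1.trans (mul_le_mul_of_nonneg_left h2 hD)) (by positivity)
    _ = _ := by ring

end Pool.Agent.P.MP_ed7f76_gt
end

-- part Pool.Agent.P.MP_ed7f76_gt.Main
section

/-! Passage to the limit and the final theorem. -/

namespace Pool.Agent.P.MP_ed7f76_gt

open Finset Filter

lemma summable_G {b : ℤ → ℂ} (hb : Summable fun t : ℤ => (1 + |(t : ℝ)|) * ‖b t‖) (c l q : ℤ) :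
    Summable fun m : ℤ => ((|m + c| : ℤ) : ℂ) * (b (m + l) * b (q - m)) := by
  set B0 : ℝ := ∑' t : ℤ, (1 + |(t : ℝ)|) * ‖b t‖ with hB0
  have hB : ∀ t, ‖b t‖ ≤ B0 := by
    intro t
    have h1 : (1 + |(t : ℝ)|) * ‖b t‖ ≤ B0 := hb.le_tsum t fun _ _ => by positivity
    have h2 : 0 ≤ |(t : ℝ)| * ‖b t‖ := by positivity
    linarith
  have h1 : Summable fun m : ℤ => (1 + |((m + l : ℤ) : ℝ)|) * ‖b (m + l)‖ :=
    (Equiv.addRight l).summable_iff.mpr hb
  refine Summable.of_norm_bounded (h1.mul_left ((1 + |((c - l : ℤ) : ℝ)|) * B0)) fun m => ?_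
  rw [norm_mul, norm_mul, Complex.norm_intCast, Int.cast_abs, abs_abs]
  have h2 : |((m + c : ℤ) : ℝ)| ≤ (1 + |((c - l : ℤ) : ℝ)|) * (1 + |((m + l : ℤ) : ℝ)|) := by
    have e : ((m + c : ℤ) : ℝ) = ((c - l : ℤ) : ℝ) + ((m + l : ℤ) : ℝ) := by push_cast; ring
    rw [e]
    have := abs_add_le ((c - l : ℤ) : ℝ) ((m + l : ℤ) : ℝ)
    have a1 := abs_nonneg ((c - l : ℤ) : ℝ)
    have a2 := abs_nonneg ((m + l : ℤ) : ℝ)
    nlinarith
  calc _ ≤ ((1 + |((c - l : ℤ) : ℝ)|) * (1 + |((m + l : ℤ) : ℝ)|)) * (‖b (m + l)‖ * B0) :=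
        mul_le_mul h2 (mul_le_mul_of_nonneg_left (hB _) (norm_nonneg _)) (by positivity)
          (by positivity)
    _ = _ := by ring

/-- the full kernel -/
noncomputable def Gk (b : ℤ → ℂ) (l q : ℤ) : ℂ :=
  ∑' m : ℤ, ((|m| : ℤ) : ℂ) * (b (m + l) * b (q - m))

lemma Gk_second {b : ℤ → ℂ} (hb : Summable fun t : ℤ => (1 + |(t : ℝ)|) * ‖b t‖) (l q : ℤ) :
    Gk b (l + 1) (q - 1) - 2 * Gk b l q + Gk b (l - 1) (q + 1) = 2 * (b l * b q) := by
  have e1 : Gk b (l + 1) (q - 1) = ∑' m : ℤ, ((|m + -1| : ℤ) : ℂ) * (b (m + l) * b (q - m)) := by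
    unfold Gk
    rw [← (Equiv.addRight (1 : ℤ)).tsum_eq
      (fun m : ℤ => ((|m + -1| : ℤ) : ℂ) * (b (m + l) * b (q - m)))]
    refine tsum_congr fun m => ?_
    simp only [Equiv.coe_addRight]
    congr 3 <;> ring
  have e2 : Gk b (l - 1) (q + 1) = ∑' m : ℤ, ((|m + 1| : ℤ) : ℂ) * (b (m + l) * b (q - m)) := by
    unfold Gk
    rw [← (Equiv.addRight (-1 : ℤ)).tsum_eq
      (fun m : ℤ => ((|m + 1| : ℤ) : ℂ) * (b (m + l) * b (q - m)))]
    refine tsum_congr fun m => ?_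
    simp only [Equiv.coe_addRight]
    congr 3 <;> ring
  have e3 : Gk b l q = ∑' m : ℤ, ((|m + 0| : ℤ) : ℂ) * (b (m + l) * b (q - m)) := by
    simp only [add_zero]; rfl
  have s1 := summable_G hb (-1) l q
  have s2 := summable_G hb 1 l q
  have s3 := (summable_G hb 0 l q).mul_left 2
  rw [e1, e2, e3, ← tsum_mul_left, ← s1.tsum_sub s3, ← (s1.sub s3).tsum_add s2,
    tsum_eq_single 0]
  · simp; ring
  · intro m hm
    have : |m + -1| - 2 * |m + 0| + |m + 1| = 0 := by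
      rcases lt_or_gt_of_ne hm with h | h
      · rw [abs_of_nonpos (by omega), abs_of_nonpos (by omega), abs_of_nonpos (by omega)]; ring
      · rw [abs_of_nonneg (by omega), abs_of_nonneg (by omega), abs_of_nonneg (by omega)]; ring
    have h2 : ((|m + -1| : ℤ) : ℂ) - 2 * ((|m + 0| : ℤ) : ℂ) + ((|m + 1| : ℤ) : ℂ) = 0 := by
      exact_mod_cast this
    linear_combination (b (m + l) * b (q - m)) * h2

lemma tendsto_Icc : Tendsto (fun M : ℕ => Icc (-(M : ℤ)) M) atTop atTop := by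
  refine Filter.tendsto_atTop_finset_of_monotone ?_ ?_
  · intro M M' hM
    refine Finset.Icc_subset_Icc ?_ ?_ <;> omega
  · intro x
    refine ⟨x.natAbs, ?_⟩
    rw [mem_Icc]; omega

lemma tendsto_GM {b : ℤ → ℂ} (hb : Summable fun t : ℤ => (1 + |(t : ℝ)|) * ‖b t‖) (l q : ℤ) :
    Tendsto (fun M : ℕ => GM b (Icc (-(M : ℤ)) M) l q) atTop (nhds (Gk b l q)) := by
  have h1 := (summable_G hb 0 l q).hasSum
  simp only [add_zero] at h1
  have h2 : Tendsto (fun s : Finset ℤ => GM b s l q) atTop (nhds (Gk b l q)) := h1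
  exact h2.comp tendsto_Icc

theorem abstract_main (m n : ℕ) (hn : n + 1 = 2 * (m + 2)) : ∃ c : ℝ, 0 < c ∧
    ∀ b : ℤ → ℂ, (∀ t, b (-t) = star (b t)) →
      (∀ r : ℕ, Summable fun t : ℤ => (1 + |(t : ℝ)|) ^ r * ‖b t‖) →
      ∃ Z S : ℝ, HasSum (fun j : {j : Fin (n + 1) → ℤ // ∑ i, j i = 0} =>
          (Ncoef j.1 : ℂ) * ∏ i, b (j.1 i)) (Z : ℂ) ∧
        HasSum (fun t : ℕ => ((t : ℝ) + 2) ^ (2 * (m + 2) + 1) * ‖b ((t : ℤ) + 2)‖ ^ (2 * (m + 2))) S ∧
        c * S ≤ Z := by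
  set D : ℝ := (40 * 4 ^ (2 * (m + 2)) * (1000000000 : ℝ) ^ (((m + 2 : ℕ) : ℝ) / 2)) with hD
  have hD0 : 0 < D := by positivity
  refine ⟨(D * 2 ^ (m + 3))⁻¹, by positivity, fun b hb hs => ?_⟩
  have hs1 : Summable fun t : ℤ => (1 + |(t : ℝ)|) * ‖b t‖ := by simpa using hs 1
  obtain ⟨Z, hZ, hlim⟩ := exists_limit (n := n) (by rw [hn]; exact even_two_mul _) (hs _)
  have him : Z.im = 0 := by
    have h1 := (Complex.continuous_im.tendsto Z).comp hlim
    have h2 : ∀ M : ℕ, (Complex.im ∘ fun M : ℕ =>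
        ∑ x ∈ Fintype.piFinset (fun _ : Fin (n + 1) => Icc (-(M : ℤ)) M), gterm b x) M = 0 :=
      fun M => (trunc_bound hb m n hn M M le_rfl).1
    exact tendsto_nhds_unique h1 (tendsto_const_nhds.congr fun M => (h2 M).symm)
  have hbound : ∀ L : ℤ, ∑ q ∈ Icc 1 L, (∑ l ∈ Icc 1 L, (l : ℝ) * q * ‖Gk b l q‖ ^ 2)
        ^ (((m + 2 : ℕ) : ℝ) / 2) ≤ 2 ^ (m + 3) * Z.re := by
    intro L
    have h1 := ((Complex.continuous_re.tendsto Z).comp hlim).const_mul (2 ^ (m + 3))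
    have h2 : Tendsto (fun M : ℕ => ∑ q ∈ Icc 1 L,
        (∑ l ∈ Icc 1 L, (l : ℝ) * q * ‖GM b (Icc (-(M : ℤ)) M) l q‖ ^ 2) ^ (((m + 2 : ℕ) : ℝ) / 2))
        atTop (nhds (∑ q ∈ Icc 1 L, (∑ l ∈ Icc 1 L, (l : ℝ) * q * ‖Gk b l q‖ ^ 2)
        ^ (((m + 2 : ℕ) : ℝ) / 2))) := by
      refine tendsto_finsetSum _ fun q _ => Tendsto.rpow_const ?_ (Or.inr (by positivity))
      exact tendsto_finsetSum _ fun l _ => (((tendsto_GM hs1 l q).norm).pow 2).const_mul _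
    refine le_of_tendsto_of_tendsto h2 h1 ?_
    filter_upwards [eventually_ge_atTop L.toNat] with M hM
    exact (trunc_bound hb m n hn L M (by omega)).2
  have hpart : ∀ N : ℕ, ∑ t ∈ range N,
      ((t : ℝ) + 2) ^ (2 * (m + 2) + 1) * ‖b ((t : ℤ) + 2)‖ ^ (2 * (m + 2))
        ≤ D * (2 ^ (m + 3) * Z.re) := by
    intro N
    have h1 := scales (Gk_second hs1) m ((N : ℤ) + 1)
    refine le_trans (le_of_eq ?_) (h1.trans (mul_le_mul_of_nonneg_left (hbound _) hD0.le))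
    refine Finset.sum_bij (fun t _ => (t : ℤ) + 2) ?_ ?_ ?_ ?_
    · intro t ht; simp only [mem_range, mem_Icc] at ht ⊢; omega
    · intro x _ y _ h; omega
    · intro y hy
      simp only [mem_Icc] at hy
      exact ⟨(y - 2).toNat, by simp only [mem_range]; omega, by omega⟩
    · intro t _; push_cast; rfl
  have hnn : ∀ t : ℕ, 0 ≤ ((t : ℝ) + 2) ^ (2 * (m + 2) + 1) * ‖b ((t : ℤ) + 2)‖ ^ (2 * (m + 2)) :=
    fun t => by positivity
  have hsum := summable_of_sum_range_le hnn hpart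
  refine ⟨Z.re, _, ?_, hsum.hasSum, ?_⟩
  · have : (Z.re : ℂ) = Z := Complex.ext (by simp) (by simp [him])
    rw [this]; exact hZ
  · have h1 := Real.tsum_le_of_sum_range_le hnn hpart
    rw [inv_mul_le_iff₀ (by positivity), mul_assoc]
    exact h1

lemma fc_neg (a : ℝ → ℝ) (t : ℤ) : fc a (-t) = star (fc a t) := by
  unfold fc
  rw [star_mul', Complex.star_def, intervalIntegral.integral_of_le (by positivity),
    intervalIntegral.integral_of_le (by positivity), ← integral_conj]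
  congr 1
  · simp [map_ofNat]
  · congr 1
    funext θ
    simp only [map_mul, Complex.conj_ofReal, ← Complex.exp_conj, map_neg, Complex.conj_I,
      map_intCast]
    congr 2; push_cast; ring

lemma fc_deriv {a : ℝ → ℝ} (ha : ContDiff ℝ (⊤ : ℕ∞) a) (hp : Function.Periodic a (2 * Real.pi))
    (t : ℤ) : fc (deriv a) t = (t * Complex.I) * fc a t := by
  have hd : Differentiable ℝ a := ha.differentiable (by simp)
  have hc : Continuous (deriv a) := ha.continuous_deriv (by simp)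
  have h1 : ∀ θ : ℝ, HasDerivAt (fun θ : ℝ => (a θ : ℂ)) ((deriv a θ : ℝ) : ℂ) θ :=
    fun θ => (hd θ).hasDerivAt.ofReal_comp
  have h2 : ∀ θ : ℝ, HasDerivAt (fun θ : ℝ => Complex.exp (-((t : ℂ) * θ * Complex.I)))
      (Complex.exp (-((t : ℂ) * θ * Complex.I)) * (-((t : ℂ) * Complex.I))) θ := by
    intro θ
    have h3 : HasDerivAt (fun θ : ℝ => -((t : ℂ) * θ * Complex.I)) (-((t : ℂ) * Complex.I)) θ := by
      have := (((hasDerivAt_id θ).ofReal_comp.const_mul (t : ℂ)).mul_const Complex.I).fun_neg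
      simpa using this
    exact h3.cexp
  have h4 := intervalIntegral.integral_mul_deriv_eq_deriv_mul (a := 0) (b := 2 * Real.pi)
    (fun θ _ => h1 θ) (fun θ _ => h2 θ)
    ((Complex.continuous_ofReal.comp hc).intervalIntegrable _ _)
    (Continuous.intervalIntegrable (by fun_prop) _ _)
  have h5 : a (2 * Real.pi) = a 0 := by simpa using hp 0
  have h6 : Complex.exp (-((t : ℂ) * ((2 * Real.pi : ℝ) : ℂ) * Complex.I)) = 1 := by
    have := Complex.exp_int_mul_two_pi_mul_I (-t)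
    rw [← this]; congr 1; push_cast; ring
  rw [h5, h6] at h4
  simp only [Complex.ofReal_zero, mul_zero, zero_mul, neg_zero, Complex.exp_zero, sub_self,
    zero_sub] at h4
  have h7 : ∫ x in (0 : ℝ)..(2 * Real.pi),
      (a x : ℂ) * (Complex.exp (-((t : ℂ) * x * Complex.I)) * (-((t : ℂ) * Complex.I)))
      = (∫ x in (0 : ℝ)..(2 * Real.pi), (a x : ℂ) * Complex.exp (-((t : ℂ) * x * Complex.I)))
        * (-((t : ℂ) * Complex.I)) := by
    rw [← intervalIntegral.integral_mul_const]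
    simp only [mul_assoc]
  rw [h7] at h4
  unfold fc
  linear_combination (1 / (2 * Real.pi) : ℂ) * h4

lemma fc_decay (r : ℕ) : ∀ a : ℝ → ℝ, ContDiff ℝ (⊤ : ℕ∞) a → Function.Periodic a (2 * Real.pi) →
    ∃ C : ℝ, ∀ t : ℤ, |(t : ℝ)| ^ r * ‖fc a t‖ ≤ C := by
  induction r with
  | zero =>
    intro a ha _
    refine ⟨‖(1 / (2 * Real.pi) : ℂ)‖ * ∫ θ in (0 : ℝ)..(2 * Real.pi), |a θ|, fun t => ?_⟩
    rw [pow_zero, one_mul]
    unfold fc
    rw [norm_mul]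
    refine mul_le_mul_of_nonneg_left ?_ (norm_nonneg _)
    refine (intervalIntegral.norm_integral_le_integral_norm (by positivity)).trans (le_of_eq ?_)
    refine intervalIntegral.integral_congr fun θ _ => ?_
    have e : -((t : ℂ) * θ * Complex.I) = ((-(t * θ) : ℝ) : ℂ) * Complex.I := by push_cast; ring
    simp only [norm_mul, Complex.norm_real, Real.norm_eq_abs, e, Complex.norm_exp_ofReal_mul_I,
      mul_one]
  | succ r ih =>
    intro a ha hp
    have ha' : ContDiff ℝ (⊤ : ℕ∞) (deriv a) := ha.iterate_deriv 1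
    have hp' : Function.Periodic (deriv a) (2 * Real.pi) := by
      intro x
      rw [← deriv_comp_add_const]
      congr 1; funext y; exact hp y
    obtain ⟨C, hC⟩ := ih _ ha' hp'
    refine ⟨C, fun t => ?_⟩
    have := hC t
    rw [fc_deriv ha hp, norm_mul, norm_mul, Complex.norm_I, Complex.norm_intCast, mul_one] at this
    rw [pow_succ, mul_assoc]
    exact this

lemma fc_summable {a : ℝ → ℝ} (ha : ContDiff ℝ (⊤ : ℕ∞) a) (hp : Function.Periodic a (2 * Real.pi))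
    (r : ℕ) : Summable fun t : ℤ => (1 + |(t : ℝ)|) ^ r * ‖fc a t‖ := by
  obtain ⟨C0, h0⟩ := fc_decay 0 a ha hp
  obtain ⟨C1, h1⟩ := fc_decay (r + 2) a ha hp
  refine Summable.of_nonneg_of_le (fun t => by positivity) (fun t => ?_)
    (summable_inv_sq.mul_left (2 ^ (r + 2) * (C0 + C1)))
  have a0 := h0 t
  have a1 := h1 t
  rw [pow_zero, one_mul] at a0
  have hx : 0 ≤ |(t : ℝ)| := abs_nonneg _
  have hn : 0 ≤ ‖fc a t‖ := norm_nonneg _
  have e : (t : ℝ) ^ 2 = |(t : ℝ)| ^ 2 := (sq_abs _).symm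
  rw [e]
  generalize |(t : ℝ)| = x at *
  generalize ‖fc a t‖ = y at *
  have h3 : (1 + x) ^ (r + 2) ≤ 2 ^ (r + 2) * (1 + x ^ (r + 2)) := by
    rcases le_total x 1 with h | h
    · calc _ ≤ (2 : ℝ) ^ (r + 2) := pow_le_pow_left₀ (by linarith) (by linarith) _
        _ ≤ _ := le_mul_of_one_le_right (by positivity) (by have := pow_nonneg hx (r + 2); linarith)
    · calc _ ≤ (2 * x : ℝ) ^ (r + 2) := pow_le_pow_left₀ (by linarith) (by linarith) _
        _ = 2 ^ (r + 2) * x ^ (r + 2) := mul_pow _ _ _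
        _ ≤ _ := mul_le_mul_of_nonneg_left (by linarith) (by positivity)
  rw [mul_one_div, le_div_iff₀ (by positivity)]
  calc (1 + x) ^ r * y * (1 + x ^ 2) ≤ (1 + x) ^ r * y * (1 + x) ^ 2 :=
        mul_le_mul_of_nonneg_left (by nlinarith) (by positivity)
    _ = (1 + x) ^ (r + 2) * y := by ring
    _ ≤ 2 ^ (r + 2) * (1 + x ^ (r + 2)) * y := mul_le_mul_of_nonneg_right h3 hn
    _ = 2 ^ (r + 2) * (y + x ^ (r + 2) * y) := by ring
    _ ≤ _ := mul_le_mul_of_nonneg_left (by linarith) (by positivity)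

theorem main_aux (N k : ℕ) (hN : N = 2 * k) (hk : 2 ≤ k) : ∃ c : ℝ, 0 < c ∧
    ∀ a : ℝ → ℝ, ContDiff ℝ (⊤ : ℕ∞) a → Function.Periodic a (2 * Real.pi) →
      ∃ Z S : ℝ, HasSum (fun j : {j : Fin N → ℤ // ∑ i, j i = 0} =>
          (Ncoef j.1 : ℂ) * ∏ i, fc a (j.1 i)) (Z : ℂ) ∧
        HasSum (fun t : ℕ => ((t : ℝ) + 2) ^ (2 * k + 1) * ‖fc a ((t : ℤ) + 2)‖ ^ (2 * k)) S ∧
        c * S ≤ Z := by
  obtain ⟨m, rfl⟩ : ∃ m, k = m + 2 := ⟨k - 2, by omega⟩
  rcases N with _ | n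
  · omega
  obtain ⟨c, hc, h⟩ := abstract_main m n hN
  exact ⟨c, hc, fun a ha hp => h (fc a) (fc_neg a) (fc_summable ha hp)⟩

end Pool.Agent.P.MP_ed7f76_gt
end
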